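import Mathlib

/-!
# Stepanov's method, part 1: polynomials with few terms, and the operator `X (X + 1) d/dX`
-/

set_option autoImplicit false

open Finset Polynomial

namespace Pool.Agent.Helper87.SB

variable {p : ℕ} [hp : Fact p.Prime]

/-- a polynomial of degree less than `p` over the field with `p` elements vanishes at a nonzero
point to an order less than its number of terms -/
theorem few_terms {α : ZMod p} (hα : α ≠ 0) : ∀ (m : ℕ) (P : (ZMod p)[X]), P ≠ 0 →
    P.natDegree < p → (X - C α) ^ m ∣ P → m < P.support.card := by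
  intro m
  induction m with
  | zero =>
    intro P hP _ _
    rw [Finset.card_pos, Polynomial.support_nonempty]
    exact hP
  | succ m ih =>
    intro P hP hdeg hdvd
    obtain ⟨s, hs⟩ := Polynomial.support_nonempty.2 hP
    obtain ⟨Q, hQ⟩ : ∃ Q, Q = X * derivative P - C (s : ZMod p) * P := ⟨_, rfl⟩
    have hcoeff : ∀ i, Q.coeff i = ((i : ZMod p) - s) * P.coeff i := by
      intro i
      rw [hQ, coeff_sub, coeff_C_mul]
      rcases i with _ | i
      · rw [coeff_X_mul_zero]
        push_cast
        ring
      · rw [coeff_X_mul, coeff_derivative]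
        push_cast
        ring
    have hlt : ∀ i ∈ P.support, i < p := fun i hi =>
      (le_natDegree_of_mem_supp i hi).trans_lt hdeg
    have hsupp : Q.support = P.support.erase s := by
      ext i
      rw [mem_support_iff, hcoeff, Finset.mem_erase, mem_support_iff]
      constructor
      · intro h
        refine ⟨?_, right_ne_zero_of_mul h⟩
        rintro rfl
        rw [sub_self, zero_mul] at h
        exact h rfl
      · rintro ⟨h1, h2⟩
        refine mul_ne_zero ?_ h2
        intro h3
        rw [sub_eq_zero] at h3
        have h4 := (ZMod.natCast_eq_natCast_iff' i s p).1 h3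
        rw [Nat.mod_eq_of_lt (hlt i (mem_support_iff.2 h2)), Nat.mod_eq_of_lt (hlt s hs)] at h4
        exact h1 h4
    have hcard : Q.support.card = P.support.card - 1 := by
      rw [hsupp, Finset.card_erase_of_mem hs]
    have hpos : 0 < P.support.card := Finset.card_pos.2 ⟨s, hs⟩
    obtain ⟨R, hR⟩ := hdvd
    have hdvdQ : (X - C α) ^ m ∣ Q := by
      refine ⟨X * (C ((m : ZMod p) + 1) * R + (X - C α) * derivative R) -
        C (s : ZMod p) * ((X - C α) * R), ?_⟩
      rw [hQ, hR, derivative_mul, derivative_pow, derivative_sub, derivative_X, derivative_C]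
      push_cast
      ring
    by_cases hQ0 : Q = 0
    · exfalso
      rw [hQ0, support_zero] at hsupp
      have h1 : P.support ⊆ {s} := by
        intro i hi
        rw [Finset.mem_singleton]
        by_contra hne
        have : i ∈ P.support.erase s := Finset.mem_erase.2 ⟨hne, hi⟩
        rw [← hsupp] at this
        exact absurd this (Finset.notMem_empty _)
      have h2 : P = C (P.coeff s) * X ^ s := by
        ext i
        rw [coeff_C_mul, coeff_X_pow]
        split_ifs with h
        · rw [h, mul_one]
        · rw [mul_zero]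
          by_contra h3
          exact h (Finset.mem_singleton.1 (h1 (mem_support_iff.2 h3)))
      have h3 : P.eval α = 0 := by
        rw [hR, eval_mul, eval_pow, eval_sub, eval_X, eval_C, sub_self, zero_pow (by omega),
          zero_mul]
      rw [h2, eval_mul, eval_C, eval_pow, eval_X] at h3
      exact mul_ne_zero (mem_support_iff.1 hs) (pow_ne_zero _ hα) h3
    · have hdegQ : Q.natDegree < p := by
        refine lt_of_le_of_lt ?_ hdeg
        rw [natDegree_le_iff_coeff_eq_zero]
        intro i hi
        rw [hcoeff, coeff_eq_zero_of_natDegree_lt hi, mul_zero]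
      have := ih Q hQ0 hdegQ hdvdQ
      omega

/-- the operator `X (X + 1) d/dX` -/
noncomputable def Th (f : (ZMod p)[X]) : (ZMod p)[X] := X * (X + 1) * derivative f

/-- vanishing of the iterates of `X (X + 1) d/dX` gives a multiple root -/
theorem th_order {y : ZMod p} (hy : y ≠ 0) (hy1 : y + 1 ≠ 0) : ∀ (D : ℕ), D ≤ p →
    ∀ f : (ZMod p)[X], (∀ j < D, (Th^[j] f).eval y = 0) → (X - C y) ^ D ∣ f := by
  intro D
  induction D with
  | zero =>
    intro _ f _
    rw [pow_zero]
    exact one_dvd _
  | succ D ih =>
    intro hD f hf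
    rcases Nat.eq_zero_or_pos D with h0 | h0
    · subst h0
      have h1 := hf 0 (by omega)
      rw [Function.iterate_zero, id] at h1
      rw [zero_add, pow_one, dvd_iff_isRoot]
      exact h1
    · have h1 : (X - C y) ^ D ∣ f := ih (by omega) f (fun j hj => hf j (by omega))
      have h2 : (X - C y) ^ D ∣ Th f := ih (by omega) (Th f) (by
        intro j hj
        have := hf (j + 1) (by omega)
        rwa [Function.iterate_succ_apply] at this)
      obtain ⟨R, hR⟩ := h1
      obtain ⟨E, rfl⟩ : ∃ E, D = E + 1 := ⟨D - 1, by omega⟩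
      have h3 : Th f = (X - C y) ^ E * (X * (X + 1) * (C ((E : ZMod p) + 1) * R)) +
          (X - C y) ^ (E + 1) * (X * (X + 1) * derivative R) := by
        unfold Th
        rw [hR, derivative_mul, derivative_pow, derivative_sub, derivative_X, derivative_C]
        push_cast
        ring
      rw [h3] at h2
      have h4 : (X - C y) ^ (E + 1) ∣ (X - C y) ^ E * (X * (X + 1) * (C ((E : ZMod p) + 1) * R)) :=
        (dvd_add_left (dvd_mul_right _ _)).1 h2
      rw [pow_succ] at h4
      have h5 : (X - C y) ∣ X * (X + 1) * (C ((E : ZMod p) + 1) * R) :=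
        (mul_dvd_mul_iff_left (pow_ne_zero E (X_sub_C_ne_zero y))).1 h4
      rw [dvd_iff_isRoot, IsRoot.def, eval_mul, eval_mul, eval_X, eval_add, eval_X, eval_one,
        eval_mul, eval_C] at h5
      have hE : ((E : ZMod p) + 1) ≠ 0 := by
        intro h
        have h6 : ((E + 1 : ℕ) : ZMod p) = 0 := by push_cast; exact h
        rw [ZMod.natCast_eq_zero_iff] at h6
        have := Nat.le_of_dvd (by omega) h6
        omega
      have h6 : R.eval y = 0 := by
        rcases mul_eq_zero.1 h5 with h | h
        · exact absurd h (mul_ne_zero hy hy1)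
        · rcases mul_eq_zero.1 h with h | h
          · exact absurd h hE
          · exact h
      obtain ⟨R', hR'⟩ := (dvd_iff_isRoot (p := R) (a := y)).2 h6
      refine ⟨R', ?_⟩
      rw [hR, hR', pow_succ _ (E + 1)]
      ring

/-- the action of the operator on `P X ^ m (X + 1) ^ l` -/
noncomputable def Op (m l : ℕ) (P : (ZMod p)[X]) : (ZMod p)[X] :=
  X * (X + 1) * derivative P + (C (m : ZMod p) * (X + 1) + C (l : ZMod p) * X) * P

theorem th_mul (m l : ℕ) (P : (ZMod p)[X]) :
    Th (P * (X ^ m * (X + 1) ^ l)) = Op m l P * (X ^ m * (X + 1) ^ l) := by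
  have e1 : X * derivative (X ^ m : (ZMod p)[X]) = C (m : ZMod p) * X ^ m := by
    rcases m with _ | m
    · simp
    · rw [derivative_X_pow, Nat.add_sub_cancel]
      ring
  have e2 : (X + 1) * derivative ((X + 1) ^ l : (ZMod p)[X]) = C (l : ZMod p) * (X + 1) ^ l := by
    rcases l with _ | l
    · simp
    · rw [derivative_pow, Nat.add_sub_cancel]
      simp only [derivative_add, derivative_X, derivative_one, add_zero, mul_one]
      ring
  unfold Th Op
  rw [derivative_mul, derivative_mul]
  linear_combination (X + 1) * P * (X + 1) ^ l * e1 + X * P * X ^ m * e2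

theorem th_iter (m l : ℕ) (P : (ZMod p)[X]) (j : ℕ) :
    Th^[j] (P * (X ^ m * (X + 1) ^ l)) = (Op m l)^[j] P * (X ^ m * (X + 1) ^ l) := by
  induction j generalizing P with
  | zero => rfl
  | succ j ih =>
    rw [Function.iterate_succ_apply, Function.iterate_succ_apply, th_mul, ih]

theorem op_deg (m l : ℕ) (P : (ZMod p)[X]) : (Op m l P).natDegree ≤ P.natDegree + 1 := by
  unfold Op
  refine (natDegree_add_le _ _).trans (max_le ?_ ?_)
  · rcases Nat.eq_zero_or_pos P.natDegree with h | h
    · obtain ⟨c, hc⟩ := natDegree_eq_zero.1 h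
      rw [← hc, derivative_C, mul_zero]
      simp
    · refine natDegree_mul_le.trans ?_
      have h1 := natDegree_derivative_le P
      have h2 : (X * (X + 1) : (ZMod p)[X]).natDegree ≤ 2 := by
        refine natDegree_mul_le.trans ?_
        have h3 : (X + 1 : (ZMod p)[X]).natDegree ≤ 1 := by
          refine (natDegree_add_le _ _).trans ?_
          simp
        have h4 : (X : (ZMod p)[X]).natDegree ≤ 1 := natDegree_X_le
        omega
      omega
  · refine natDegree_mul_le.trans ?_
    have h3 : (C (m : ZMod p) * (X + 1) + C (l : ZMod p) * X : (ZMod p)[X]).natDegree ≤ 1 := by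
      refine (natDegree_add_le _ _).trans (max_le ?_ ?_)
      · refine (natDegree_C_mul_le _ _).trans ?_
        refine (natDegree_add_le _ _).trans ?_
        simp
      · exact (natDegree_C_mul_le _ _).trans natDegree_X_le
    omega

theorem op_iter_deg (m l : ℕ) (P : (ZMod p)[X]) (j : ℕ) :
    ((Op m l)^[j] P).natDegree ≤ P.natDegree + j := by
  induction j generalizing P with
  | zero => exact le_rfl
  | succ j ih =>
    rw [Function.iterate_succ_apply]
    have h1 := ih (Op m l P)
    have h2 := op_deg m l P
    omega

theorem th_sum {ι : Type*} (s : Finset ι) (c : ι → ZMod p) (f : ι → (ZMod p)[X]) (j : ℕ) :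
    Th^[j] (∑ i ∈ s, C (c i) * f i) = ∑ i ∈ s, C (c i) * Th^[j] (f i) := by
  induction j generalizing f with
  | zero => rfl
  | succ j ih =>
    have h1 : Th (∑ i ∈ s, C (c i) * f i) = ∑ i ∈ s, C (c i) * Th (f i) := by
      unfold Th
      rw [derivative_sum, Finset.mul_sum]
      refine Finset.sum_congr rfl fun i _ => ?_
      rw [derivative_C_mul]
      ring
    rw [Function.iterate_succ_apply, h1, ih]
    refine Finset.sum_congr rfl fun i _ => ?_
    rw [Function.iterate_succ_apply]

end Pool.Agent.Helper87.SB
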