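import Mathlib
import Pool.Agent.Helper87.SB.Terms

/-!
# Stepanov's method, part 2: the number of `y` with `y ^ t = (y + 1) ^ t = κ`, `κ` in a finite set
-/

set_option autoImplicit false

open Finset Polynomial

namespace Pool.Agent.Helper87.SB

variable {p : ℕ} [hp : Fact p.Prime]

/-- nonzero solution of a homogeneous system -/
theorem exists_sol {ι ω : Type*} [Fintype ι] [Fintype ω] (M : ω → ι → ZMod p)
    (h : Fintype.card ω < Fintype.card ι) :
    ∃ v : ι → ZMod p, v ≠ 0 ∧ ∀ w, ∑ i, v i * M w i = 0 := by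
  classical
  let L : (ι → ZMod p) →ₗ[ZMod p] (ω → ZMod p) :=
    { toFun := fun v w => ∑ i, v i * M w i
      map_add' := by
        intro u v
        funext w
        simp only [Pi.add_apply, add_mul, Finset.sum_add_distrib]
      map_smul' := by
        intro c v
        funext w
        simp only [Pi.smul_apply, smul_eq_mul, RingHom.id_apply, Finset.mul_sum, mul_assoc] }
  have hk : LinearMap.ker L ≠ ⊥ := LinearMap.ker_ne_bot_of_finrank_lt (by
    rw [Module.finrank_fintype_fun_eq_card, Module.finrank_fintype_fun_eq_card]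
    exact h)
  obtain ⟨v, hv, hv0⟩ := (Submodule.ne_bot_iff _).1 hk
  refine ⟨v, hv0, fun w => ?_⟩
  exact congrFun (LinearMap.mem_ker.1 hv) w

/-- the products `X ^ a (X ^ t) ^ b ((X + 1) ^ t) ^ c` are independent -/
theorem indep {t A B : ℕ} (hAB : A * B ≤ t) (ht : 0 < t) (htB : t * B ≤ p)
    (v : Fin A × Fin B × Fin B → ZMod p) (hv : v ≠ 0) :
    ∑ i, C (v i) * (X ^ (i.1 : ℕ) * (X ^ (t * (i.2.1 : ℕ)) * (X + 1) ^ (t * (i.2.2 : ℕ))))
      ≠ (0 : (ZMod p)[X]) := by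
  classical
  intro hzero
  obtain ⟨G, hG⟩ : ∃ G : Fin B → (ZMod p)[X], ∀ c, G c = ∑ a : Fin A, ∑ b : Fin B,
      C (v (a, b, c)) * X ^ ((a : ℕ) + t * (b : ℕ)) := ⟨_, fun _ => rfl⟩
  have hAt : ∀ b : Fin B, A ≤ t := fun b => by
    have h1 : 1 ≤ B := by have := b.2; omega
    calc A = A * 1 := (mul_one A).symm
      _ ≤ A * B := Nat.mul_le_mul_left A h1
      _ ≤ t := hAB
  have hcoef : ∀ (c : Fin B) (n : ℕ), (G c).coeff n =
      ∑ a : Fin A, ∑ b : Fin B, if n = (a : ℕ) + t * (b : ℕ) then v (a, b, c) else 0 := by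
    intro c n
    rw [hG, finsetSum_coeff]
    refine Finset.sum_congr rfl fun a _ => ?_
    rw [finsetSum_coeff]
    refine Finset.sum_congr rfl fun b _ => ?_
    rw [coeff_C_mul, coeff_X_pow]
    split_ifs <;> simp
  have hinj : ∀ (a a' : Fin A) (b b' : Fin B), (a : ℕ) + t * (b : ℕ) = a' + t * (b' : ℕ) →
      a = a' ∧ b = b' := by
    intro a a' b b' h
    have h1 := hAt b
    have ha := a.2
    have ha' := a'.2
    have e1 : ((a : ℕ) + t * (b : ℕ)) % t = a := by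
      rw [Nat.add_mul_mod_self_left, Nat.mod_eq_of_lt (by omega)]
    have e2 : ((a' : ℕ) + t * (b' : ℕ)) % t = a' := by
      rw [Nat.add_mul_mod_self_left, Nat.mod_eq_of_lt (by omega)]
    have e3 : (a : ℕ) = a' := by rw [← e1, ← e2, h]
    have e4 : t * (b : ℕ) = t * (b' : ℕ) := by omega
    exact ⟨Fin.ext e3, Fin.ext (Nat.eq_of_mul_eq_mul_left ht e4)⟩
  -- some `G c` is nonzero
  obtain ⟨S, hS⟩ : ∃ S : Finset (Fin B), S = univ.filter (fun c => G c ≠ 0) := ⟨_, rfl⟩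
  have hne : S.Nonempty := by
    obtain ⟨⟨a, b, c⟩, hi⟩ := Function.ne_iff.1 hv
    refine ⟨c, ?_⟩
    rw [hS, Finset.mem_filter]
    refine ⟨mem_univ _, fun h0 => hi ?_⟩
    have h1 := hcoef c ((a : ℕ) + t * (b : ℕ))
    rw [h0, coeff_zero, Finset.sum_eq_single a, Finset.sum_eq_single b] at h1
    · rw [if_pos rfl] at h1
      exact h1.symm
    · intro b' _ hb'
      rw [if_neg]
      intro h
      exact hb' (hinj _ _ _ _ h).2.symm
    · intro h
      exact absurd (mem_univ _) h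
    · intro a' _ ha'
      refine Finset.sum_eq_zero fun b' _ => ?_
      rw [if_neg]
      intro h
      exact ha' (hinj _ _ _ _ h).1.symm
    · intro h
      exact absurd (mem_univ _) h
  obtain ⟨c₀, hc₀⟩ : ∃ c₀, c₀ = S.min' hne := ⟨_, rfl⟩
  have hc₀S : c₀ ∈ S := by rw [hc₀]; exact Finset.min'_mem _ _
  have hGc₀ : G c₀ ≠ 0 := by
    rw [hS, Finset.mem_filter] at hc₀S
    exact hc₀S.2
  have hmin : ∀ c, c < c₀ → G c = 0 := by
    intro c hc
    by_contra h
    have h1 : c ∈ S := by rw [hS, Finset.mem_filter]; exact ⟨mem_univ _, h⟩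
    have h2 := Finset.min'_le S c h1
    rw [← hc₀] at h2
    exact absurd hc (not_lt.2 h2)
  -- rewrite the sum
  have hsum : ∑ c : Fin B, (X + 1) ^ (t * (c : ℕ)) * G c = (0 : (ZMod p)[X]) := by
    rw [← hzero, Fintype.sum_prod_type]
    simp_rw [Fintype.sum_prod_type]
    have e1 : ∀ c : Fin B, (X + 1) ^ (t * (c : ℕ)) * G c = ∑ a : Fin A, ∑ b : Fin B,
        C (v (a, b, c)) * (X ^ (a : ℕ) * (X ^ (t * (b : ℕ)) * (X + 1) ^ (t * (c : ℕ)))) := by
      intro c
      rw [hG, Finset.mul_sum]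
      refine Finset.sum_congr rfl fun a _ => ?_
      rw [Finset.mul_sum]
      refine Finset.sum_congr rfl fun b _ => ?_
      rw [pow_add]
      ring
    rw [Finset.sum_congr rfl fun c _ => e1 c, Finset.sum_comm]
    refine Finset.sum_congr rfl fun a _ => ?_
    rw [Finset.sum_comm]
  have hdvd : ((X + 1) ^ (t * (c₀ : ℕ)) * (X + 1) ^ t : (ZMod p)[X]) ∣
      ∑ c ∈ univ.erase c₀, (X + 1) ^ (t * (c : ℕ)) * G c := by
    refine Finset.dvd_sum fun c hc => ?_
    rw [Finset.mem_erase] at hc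
    rcases lt_or_ge c c₀ with h | h
    · rw [hmin c h, mul_zero]
      exact dvd_zero _
    · refine Dvd.dvd.mul_right ?_ _
      rw [← pow_add]
      apply pow_dvd_pow
      have h1 : (c₀ : ℕ) + 1 ≤ c := by
        have h2 : c₀ ≠ c := fun h3 => hc.1 h3.symm
        have h3 : c₀ < c := lt_of_le_of_ne h h2
        exact h3
      calc t * (c₀ : ℕ) + t = t * (c₀ + 1) := by ring
        _ ≤ t * (c : ℕ) := Nat.mul_le_mul_left t h1
  have hX1 : (X + 1 : (ZMod p)[X]) ≠ 0 := by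
    have h1 : (X + 1 : (ZMod p)[X]) = X + C 1 := by rw [map_one]
    rw [h1]
    exact X_add_C_ne_zero 1
  have hdvd2 : ((X + 1) ^ t : (ZMod p)[X]) ∣ G c₀ := by
    rw [← Finset.add_sum_erase univ _ (mem_univ c₀)] at hsum
    have h1 : ((X + 1) ^ (t * (c₀ : ℕ)) * (X + 1) ^ t : (ZMod p)[X]) ∣
        (X + 1) ^ (t * (c₀ : ℕ)) * G c₀ := by
      rw [eq_neg_of_add_eq_zero_left hsum]
      exact hdvd.neg_right
    exact (mul_dvd_mul_iff_left (pow_ne_zero _ hX1)).1 h1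
  have hexp : ∀ n, (G c₀).coeff n ≠ 0 → ∃ (a : Fin A) (b : Fin B), n = (a : ℕ) + t * (b : ℕ) := by
    intro n hn
    by_contra hcon
    push Not at hcon
    apply hn
    rw [hcoef]
    refine Finset.sum_eq_zero fun a _ => Finset.sum_eq_zero fun b _ => ?_
    rw [if_neg (hcon a b)]
  have hdeg : (G c₀).natDegree < p := by
    have h1 : (G c₀).coeff (G c₀).natDegree ≠ 0 := by
      rw [coeff_natDegree]
      exact leadingCoeff_ne_zero.2 hGc₀
    obtain ⟨a, b, hab⟩ := hexp _ h1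
    have h2 := hAt b
    have ha := a.2
    have hb := b.2
    rw [hab]
    have h3 : t * ((b : ℕ) + 1) ≤ t * B := Nat.mul_le_mul_left t hb
    have h4 : t * ((b : ℕ) + 1) = t * (b : ℕ) + t := by ring
    omega
  have hcard : (G c₀).support.card ≤ A * B := by
    have h1 : (G c₀).support ⊆ (univ : Finset (Fin A × Fin B)).image
        (fun i => (i.1 : ℕ) + t * (i.2 : ℕ)) := by
      intro n hn
      obtain ⟨a, b, hab⟩ := hexp n (mem_support_iff.1 hn)
      exact Finset.mem_image.2 ⟨(a, b), mem_univ _, hab.symm⟩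
    refine (card_le_card h1).trans (card_image_le.trans ?_)
    rw [card_univ, Fintype.card_prod, Fintype.card_fin, Fintype.card_fin]
  have hneg : (-1 : ZMod p) ≠ 0 := neg_ne_zero.2 one_ne_zero
  have hfin := few_terms hneg t (G c₀) hGc₀ hdeg (by
    have h1 : (X - C (-1) : (ZMod p)[X]) = X + 1 := by
      rw [map_neg, map_one, sub_neg_eq_add]
    rw [h1]
    exact hdvd2)
  omega

/-- the solutions of `y ^ t = (y + 1) ^ t = κ` -/
def Rt (t : ℕ) (κ : ZMod p) : Finset (ZMod p) := univ.filter fun y => y ^ t = κ ∧ (y + 1) ^ t = κ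

theorem stepanov {t A B D : ℕ} (K : Finset (ZMod p)) (hK : ∀ κ ∈ K, κ ≠ 0) (hAB : A * B ≤ t)
    (ht : 0 < t) (htB : t * B ≤ p) (hD : D ≤ p)
    (hcount : K.card * (D * (A + D)) < A * (B * B)) :
    D * (∑ κ ∈ K, (Rt t κ).card) ≤ A + 2 * (t * B) := by
  classical
  obtain ⟨v, hv0, hv⟩ := exists_sol (p := p) (ι := Fin A × Fin B × Fin B)
    (ω := {κ // κ ∈ K} × Fin D × Fin (A + D))
    (fun w i => (w.1 : ZMod p) ^ ((i.2.1 : ℕ) + (i.2.2 : ℕ)) *
      ((Op (t * (i.2.1 : ℕ)) (t * (i.2.2 : ℕ)))^[(w.2.1 : ℕ)] (X ^ (i.1 : ℕ))).coeff (w.2.2 : ℕ))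
    (by
      rw [Fintype.card_prod, Fintype.card_prod, Fintype.card_prod, Fintype.card_prod,
        Fintype.card_fin, Fintype.card_fin, Fintype.card_fin, Fintype.card_fin, Fintype.card_coe]
      exact hcount)
  obtain ⟨Ψ, hΨ⟩ : ∃ Ψ : (ZMod p)[X], Ψ = ∑ i : Fin A × Fin B × Fin B,
      C (v i) * (X ^ (i.1 : ℕ) * (X ^ (t * (i.2.1 : ℕ)) * (X + 1) ^ (t * (i.2.2 : ℕ)))) :=
    ⟨_, rfl⟩
  have hΨ0 : Ψ ≠ 0 := by
    rw [hΨ]
    exact indep hAB ht htB v hv0
  -- the conditions as polynomial identities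
  have hpoly : ∀ κ ∈ K, ∀ j < D, ∑ i : Fin A × Fin B × Fin B,
      C (v i * κ ^ ((i.2.1 : ℕ) + (i.2.2 : ℕ))) *
        (Op (t * (i.2.1 : ℕ)) (t * (i.2.2 : ℕ)))^[j] (X ^ (i.1 : ℕ)) = (0 : (ZMod p)[X]) := by
    intro κ hκ j hj
    ext n
    rw [finsetSum_coeff, coeff_zero]
    simp_rw [coeff_C_mul]
    rcases Nat.lt_or_ge n (A + D) with hn | hn
    · have h1 := hv (⟨κ, hκ⟩, ⟨j, hj⟩, ⟨n, hn⟩)
      rw [← h1]
      refine Finset.sum_congr rfl fun i _ => ?_
      rw [mul_assoc]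
    · refine Finset.sum_eq_zero fun i _ => ?_
      rw [coeff_eq_zero_of_natDegree_lt, mul_zero]
      have h1 := op_iter_deg (p := p) (t * (i.2.1 : ℕ)) (t * (i.2.2 : ℕ)) (X ^ (i.1 : ℕ)) j
      rw [natDegree_X_pow] at h1
      have h2 := i.1.2
      omega
  have hroot : ∀ κ ∈ K, ∀ y ∈ Rt t κ, (X - C y) ^ D ∣ Ψ := by
    intro κ hκ y hy
    rw [Rt, Finset.mem_filter] at hy
    obtain ⟨_, hy1, hy2⟩ := hy
    have hκ0 := hK κ hκ
    have y0 : y ≠ 0 := by
      rintro rfl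
      rw [zero_pow ht.ne'] at hy1
      exact hκ0 hy1.symm
    have y1 : y + 1 ≠ 0 := by
      intro h
      rw [h, zero_pow ht.ne'] at hy2
      exact hκ0 hy2.symm
    refine th_order y0 y1 D hD Ψ fun j hj => ?_
    rw [hΨ, th_sum, eval_finsetSum]
    have h1 := congrArg (eval y) (hpoly κ hκ j hj)
    rw [eval_finsetSum, eval_zero] at h1
    rw [← h1]
    refine Finset.sum_congr rfl fun i _ => ?_
    rw [th_iter, eval_mul, eval_mul, eval_mul, eval_mul, eval_C, eval_C, eval_pow, eval_pow,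
      eval_X, eval_add, eval_X, eval_one, pow_mul, pow_mul, hy1, hy2, pow_add]
    ring
  obtain ⟨Y, hY⟩ : ∃ Y : Finset (ZMod p), Y = K.biUnion (Rt t) := ⟨_, rfl⟩
  have hYc : Y.card = ∑ κ ∈ K, (Rt t κ).card := by
    rw [hY, Finset.card_biUnion]
    intro κ _ κ' _ hne
    rw [Function.onFun, Finset.disjoint_left]
    intro y hy hy'
    rw [Rt, Finset.mem_filter] at hy hy'
    exact hne (hy.2.1.symm.trans hy'.2.1)
  have hprod : (∏ y ∈ Y, (X - C y) ^ D) ∣ Ψ := by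
    refine Finset.prod_dvd_of_coprime ?_ ?_
    · intro y _ y' _ hne
      exact (isCoprime_X_sub_C_of_isUnit_sub (sub_ne_zero.2 hne).isUnit).pow
    · intro y hy
      rw [hY, Finset.mem_biUnion] at hy
      obtain ⟨κ, hκ, hy⟩ := hy
      exact hroot κ hκ y hy
  have hdeg1 := natDegree_le_of_dvd hprod hΨ0
  rw [natDegree_prod _ _ (fun y _ => pow_ne_zero D (X_sub_C_ne_zero y))] at hdeg1
  simp only [natDegree_pow, natDegree_X_sub_C, mul_one, Finset.sum_const, smul_eq_mul] at hdeg1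
  rw [← hYc, mul_comm]
  refine hdeg1.trans ?_
  rw [hΨ]
  refine natDegree_sum_le_of_forall_le _ _ fun i _ => ?_
  refine (natDegree_C_mul_le _ _).trans ?_
  have h1 := i.1.2
  have h2 : t * (i.2.1 : ℕ) ≤ t * B := Nat.mul_le_mul_left t i.2.1.2.le
  have h3 : t * (i.2.2 : ℕ) ≤ t * B := Nat.mul_le_mul_left t i.2.2.2.le
  have h4 : (X + 1 : (ZMod p)[X]).natDegree ≤ 1 := by
    refine (natDegree_add_le _ _).trans ?_
    simp
  have h5 : ((X + 1 : (ZMod p)[X]) ^ (t * (i.2.2 : ℕ))).natDegree ≤ t * (i.2.2 : ℕ) := by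
    refine natDegree_pow_le.trans ?_
    calc t * (i.2.2 : ℕ) * (X + 1 : (ZMod p)[X]).natDegree ≤ t * (i.2.2 : ℕ) * 1 :=
          Nat.mul_le_mul_left _ h4
      _ = t * (i.2.2 : ℕ) := mul_one _
  have h6 : (X ^ (i.1 : ℕ) * (X ^ (t * (i.2.1 : ℕ)) * (X + 1) ^ (t * (i.2.2 : ℕ))) :
      (ZMod p)[X]).natDegree ≤ (i.1 : ℕ) + (t * (i.2.1 : ℕ) + t * (i.2.2 : ℕ)) := by
    refine natDegree_mul_le.trans ?_
    refine Nat.add_le_add (natDegree_X_pow_le _) ?_
    refine natDegree_mul_le.trans ?_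
    exact Nat.add_le_add (natDegree_X_pow_le _) h5
  omega

end Pool.Agent.Helper87.SB
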