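import Mathlib
import Pool.Agent.Helper87.SB.Step

/-!
# Stepanov's method, part 3: level sets and the sum of squares
-/

set_option autoImplicit false

open Finset Polynomial

namespace Pool.Agent.Helper87.SB

variable {p : ℕ} [hp : Fact p.Prime]

/-- the nonzero `κ` with at least `τ` solutions -/
def Lev (p : ℕ) [Fact p.Prime] (t τ : ℕ) : Finset (ZMod p) :=
  univ.filter fun κ => κ ≠ 0 ∧ τ ≤ (Rt t κ).card

theorem level {t τ : ℕ} (hτ : 132 ≤ τ) (hτt : τ ≤ t) (hτ2 : t ≤ τ ^ 2)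
    (hp2 : 1089 * t ^ 3 ≤ p ^ 2) : 2 * (Lev p t τ).card * τ ^ 3 ≤ 35937 * t ^ 2 := by
  classical
  have ht : 0 < t := by omega
  obtain ⟨B, hB⟩ : ∃ B, B = 32 * t / τ + 1 := ⟨_, rfl⟩
  have hB1 : 32 * t < τ * B := by
    have h1 := Nat.lt_div_mul_add (a := 32 * t) (b := τ) (by omega)
    have h2 : τ * B = 32 * t / τ * τ + τ := by rw [hB]; ring
    omega
  have hB2 : τ * B ≤ 33 * t := by
    have h1 := Nat.div_mul_le_self (32 * t) τ
    have h2 : τ * B = 32 * t / τ * τ + τ := by rw [hB]; ring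
    omega
  obtain ⟨k', hk'⟩ : ∃ k', k' = B ^ 3 / (2 * t) + 1 := ⟨_, rfl⟩
  have hk1 : B ^ 3 < 2 * t * k' := by
    have h1 := Nat.lt_div_mul_add (a := B ^ 3) (b := 2 * t) (by omega)
    have h2 : 2 * t * k' = B ^ 3 / (2 * t) * (2 * t) + 2 * t := by rw [hk']; ring
    omega
  have hk2 : 2 * t * k' ≤ B ^ 3 + 2 * t := by
    have h1 := Nat.div_mul_le_self (B ^ 3) (2 * t)
    have h2 : 2 * t * k' = B ^ 3 / (2 * t) * (2 * t) + 2 * t := by rw [hk']; ring
    omega
  have hB4 : 4 * B ≤ t := by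
    have h1 : 132 * B ≤ τ * B := Nat.mul_le_mul_right B hτ
    omega
  have hB33 : 33 ≤ B := by
    rw [hB]
    have h1 : 32 ≤ 32 * t / τ := by
      rw [Nat.le_div_iff_mul_le (by omega)]
      exact Nat.mul_le_mul_left 32 hτt
    omega
  have htB : t * B ≤ p := by
    have h1 : (t * B) ^ 2 * t ≤ (33 * t ^ 2) ^ 2 := by
      calc (t * B) ^ 2 * t ≤ (t * B) ^ 2 * τ ^ 2 := Nat.mul_le_mul_left _ hτ2
        _ = (t * (τ * B)) ^ 2 := by ring
        _ ≤ (t * (33 * t)) ^ 2 := Nat.pow_le_pow_left (Nat.mul_le_mul_left t hB2) 2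
        _ = (33 * t ^ 2) ^ 2 := by ring
    have h2 : (t * B) ^ 2 * t ≤ (1089 * t ^ 3) * t := by
      calc (t * B) ^ 2 * t ≤ (33 * t ^ 2) ^ 2 := h1
        _ = (1089 * t ^ 3) * t := by ring
    have h3 := (Nat.le_of_mul_le_mul_right h2 ht).trans hp2
    exact (Nat.pow_le_pow_iff_left (by norm_num)).1 h3
  -- the number of elements is less than `k'`
  have hlt : (Lev p t τ).card < k' := by
    by_contra hge
    push Not at hge
    obtain ⟨K, hKsub, hKcard⟩ := Finset.exists_subset_card_eq hge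
    obtain ⟨A, hA⟩ : ∃ A, A = B ^ 2 / (4 * k') := ⟨_, rfl⟩
    have hk0 : 0 < k' := by rw [hk']; exact Nat.succ_pos _
    have h4k : 4 * k' ≤ B ^ 2 := by
      -- `4 k' ≤ 2 B ^ 3 / t + 4 ≤ B ^ 2`
      have h1 : t * (4 * k') ≤ t * B ^ 2 := by
        calc t * (4 * k') = 2 * (2 * t * k') := by ring
          _ ≤ 2 * (B ^ 3 + 2 * t) := Nat.mul_le_mul_left 2 hk2
          _ = 2 * B ^ 3 + 4 * t := by ring
          _ ≤ t * B ^ 2 := by
            have h2 : 4 * B ^ 3 ≤ t * B ^ 2 := by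
              calc 4 * B ^ 3 = 4 * B * B ^ 2 := by ring
                _ ≤ t * B ^ 2 := Nat.mul_le_mul_right _ hB4
            have h3 : 8 * t ≤ t * B ^ 2 := by
              have h4 : 8 ≤ B ^ 2 := by nlinarith
              calc 8 * t = t * 8 := by ring
                _ ≤ t * B ^ 2 := Nat.mul_le_mul_left t h4
            omega
      exact Nat.le_of_mul_le_mul_left h1 ht
    have hA1 : 4 * k' * A ≤ B ^ 2 := by
      rw [hA]
      exact Nat.mul_div_le _ _
    have hA2 : B ^ 2 ≤ 8 * k' * A := by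
      have h1 := Nat.lt_div_mul_add (a := B ^ 2) (b := 4 * k') (by omega)
      rw [← hA] at h1
      have h2 : 1 ≤ A := by
        rw [hA]
        exact Nat.div_pos h4k (by omega)
      have h3 : 4 * k' ≤ A * (4 * k') := Nat.le_mul_of_pos_left _ h2
      have h4 : 8 * k' * A = A * (4 * k') + A * (4 * k') := by ring
      omega
    have hApos : 0 < A := by
      rw [hA]
      exact Nat.div_pos h4k (by omega)
    have hAB : A * B ≤ t := by
      have h1 : 4 * k' * (A * B) ≤ 4 * k' * t := by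
        calc 4 * k' * (A * B) = 4 * k' * A * B := by ring
          _ ≤ B ^ 2 * B := Nat.mul_le_mul_right B hA1
          _ = B ^ 3 := by ring
          _ ≤ 2 * t * k' := hk1.le
          _ ≤ 4 * k' * t := by
            have : 4 * k' * t = 2 * t * k' + 2 * t * k' := by ring
            omega
      exact Nat.le_of_mul_le_mul_left h1 (by omega)
    have hAp : A ≤ p := by
      calc A = A * 1 := (mul_one A).symm
        _ ≤ A * B := Nat.mul_le_mul_left A (by omega)
        _ ≤ t := hAB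
        _ = t * 1 := (mul_one t).symm
        _ ≤ t * B := Nat.mul_le_mul_left t (by omega)
        _ ≤ p := htB
    have hst := stepanov (p := p) K (fun κ hκ => by
      have := hKsub hκ
      rw [Lev, Finset.mem_filter] at this
      exact this.2.1) hAB ht htB hAp (by
        rw [hKcard]
        calc k' * (A * (A + A)) = A * (2 * k' * A) := by ring
          _ < A * (B * B) := by
            refine Nat.mul_lt_mul_of_pos_left ?_ hApos
            have h1 : 0 < 2 * k' * A := by positivity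
            have h2 : 4 * k' * A = 2 * k' * A + 2 * k' * A := by ring
            have h3 : B ^ 2 = B * B := by ring
            omega)
    have hsum : k' * τ ≤ ∑ κ ∈ K, (Rt t κ).card := by
      rw [← hKcard, ← smul_eq_mul]
      refine Finset.card_nsmul_le_sum K _ τ fun κ hκ => ?_
      have := hKsub hκ
      rw [Lev, Finset.mem_filter] at this
      exact this.2.2
    have h1 : A * (k' * τ) ≤ A + 2 * (t * B) := (Nat.mul_le_mul_left A hsum).trans hst
    -- contradiction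
    have h2 : 2 * A ≤ A * (k' * τ) := by
      have h3 : 2 ≤ k' * τ := by
        calc 2 ≤ τ := by omega
          _ = 1 * τ := (one_mul τ).symm
          _ ≤ k' * τ := Nat.mul_le_mul_right τ hk0
      calc 2 * A = A * 2 := by ring
        _ ≤ A * (k' * τ) := Nat.mul_le_mul_left A h3
    have h3 : A * (k' * τ) ≤ 4 * (t * B) := by omega
    have h4 : B * (τ * B) ≤ 32 * t * B := by
      calc B * (τ * B) = τ * B ^ 2 := by ring
        _ ≤ τ * (8 * k' * A) := Nat.mul_le_mul_left τ hA2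
        _ = 8 * (A * (k' * τ)) := by ring
        _ ≤ 8 * (4 * (t * B)) := Nat.mul_le_mul_left 8 h3
        _ = 32 * t * B := by ring
    have h5 : B * (32 * t) < B * (τ * B) := Nat.mul_lt_mul_of_pos_left hB1 (by omega)
    have h6 : B * (32 * t) = 32 * t * B := by ring
    omega
  have hle : (Lev p t τ).card ≤ B ^ 3 / (2 * t) := by omega
  have h1 : (Lev p t τ).card * (2 * t) ≤ B ^ 3 :=
    (Nat.mul_le_mul_right _ hle).trans (Nat.div_mul_le_self _ _)
  have h2 : t * (2 * (Lev p t τ).card * τ ^ 3) ≤ t * (35937 * t ^ 2) := by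
    calc t * (2 * (Lev p t τ).card * τ ^ 3) = (Lev p t τ).card * (2 * t) * τ ^ 3 := by ring
      _ ≤ B ^ 3 * τ ^ 3 := Nat.mul_le_mul_right _ h1
      _ = (τ * B) ^ 3 := by ring
      _ ≤ (33 * t) ^ 3 := Nat.pow_le_pow_left hB2 3
      _ = t * (35937 * t ^ 2) := by ring
  exact Nat.le_of_mul_le_mul_left h2 ht

/-- the sum over all `κ` -/
theorem sum_R {t : ℕ} (ht : 0 < t) :
    ∑ κ ∈ univ.filter (fun κ : ZMod p => κ ≠ 0), (Rt t κ).card ≤ t := by
  classical
  rw [← Finset.card_biUnion]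
  · have h1 : Set.InjOn (fun y : ZMod p => 1 + y⁻¹)
        (((univ.filter (fun κ : ZMod p => κ ≠ 0)).biUnion (Rt t) : Finset (ZMod p)) :
          Set (ZMod p)) := by
      intro y _ y' _ h
      have h2 : y⁻¹ = y'⁻¹ := add_left_cancel h
      exact inv_injective h2
    rw [← Finset.card_image_of_injOn h1]
    refine (card_le_card ?_).trans ((Multiset.toFinset_card_le (nthRoots t (1 : ZMod p))).trans
      (card_nthRoots t 1))
    intro z hz
    rw [Finset.mem_image] at hz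
    obtain ⟨y, hy, rfl⟩ := hz
    rw [Finset.mem_biUnion] at hy
    obtain ⟨κ, hκ, hy⟩ := hy
    rw [Finset.mem_filter] at hκ
    rw [Rt, Finset.mem_filter] at hy
    rw [Multiset.mem_toFinset, mem_nthRoots ht]
    have y0 : y ≠ 0 := by
      rintro rfl
      rw [zero_pow ht.ne'] at hy
      exact hκ.2 hy.2.1.symm
    have e1 : 1 + y⁻¹ = (y + 1) * y⁻¹ := by
      rw [add_mul, mul_inv_cancel₀ y0, one_mul]
    rw [e1, mul_pow, inv_pow, hy.2.1, hy.2.2, mul_inv_cancel₀ hκ.2]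
  · intro κ _ κ' _ hne
    rw [Function.onFun, Finset.disjoint_left]
    intro y hy hy'
    rw [Rt, Finset.mem_filter] at hy hy'
    exact hne (hy.2.1.symm.trans hy'.2.1)

theorem sq_le_level (T₀ t R : ℕ) (hR : R ≤ t) :
    R ^ 2 ≤ T₀ * R + ∑ τ ∈ Finset.Ioc T₀ t, if τ ≤ R then 2 * τ else 0 := by
  have key : ∀ R : ℕ, T₀ ≤ R → R ≤ t →
      R ^ 2 ≤ T₀ * R + ∑ τ ∈ Finset.Ioc T₀ R, 2 * τ := by
    intro R hT
    induction R, hT using Nat.le_induction with
    | base =>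
      intro _
      rw [Finset.Ioc_self, Finset.sum_empty]
      exact le_of_eq (by ring)
    | succ R hTR ih =>
      intro hRt
      have h1 := ih (by omega)
      rw [Finset.sum_Ioc_succ_top (by omega)]
      have h2 : (R + 1) ^ 2 = R ^ 2 + 2 * R + 1 := by ring
      have h3 : T₀ * (R + 1) = T₀ * R + T₀ := by ring
      omega
  rcases Nat.lt_or_ge R T₀ with h | h
  · calc R ^ 2 = R * R := by ring
      _ ≤ T₀ * R := Nat.mul_le_mul_right R h.le
      _ ≤ _ := Nat.le_add_right _ _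
  · refine (key R h hR).trans (Nat.add_le_add_left ?_ _)
    rw [← Finset.sum_filter]
    refine Finset.sum_le_sum_of_subset ?_
    intro τ hτ
    rw [Finset.mem_Ioc] at hτ
    rw [Finset.mem_filter, Finset.mem_Ioc]
    omega

/-- the sum of squares -/
theorem sum_sq {t : ℕ} (ht : 17424 ≤ t) (hp2 : 1089 * t ^ 3 ≤ p ^ 2) :
    (∑ κ ∈ univ.filter (fun κ : ZMod p => κ ≠ 0), ((Rt t κ).card : ℝ) ^ 2) ≤
      35939 * (t * Real.sqrt t) := by
  classical
  obtain ⟨T₀, hT₀⟩ : ∃ T₀, T₀ = Nat.sqrt t + 1 := ⟨_, rfl⟩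
  have hT1 : t < T₀ ^ 2 := by
    rw [hT₀]
    exact Nat.lt_succ_sqrt' t
  have hT2 : 132 ≤ T₀ := by
    have : 132 ≤ Nat.sqrt t := by
      rw [Nat.le_sqrt]
      omega
    omega
  have hs0 : (132 : ℝ) ≤ Real.sqrt t := by
    apply Real.le_sqrt_of_sq_le
    have h132 : (132 : ℝ) ^ 2 = 17424 := by norm_num
    rw [h132]
    exact_mod_cast ht
  have hTs : (T₀ : ℝ) ≤ 2 * Real.sqrt t := by
    have h1 : (Nat.sqrt t : ℝ) ≤ Real.sqrt t := by
      apply Real.le_sqrt_of_sq_le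
      have := Nat.sqrt_le' t
      exact_mod_cast this
    rw [hT₀]
    push_cast
    linarith
  have hsT : Real.sqrt t ≤ T₀ := by
    rw [Real.sqrt_le_left (Nat.cast_nonneg _)]
    exact_mod_cast hT1.le
  have htpos : (0 : ℝ) < t := by
    have : 0 < t := by omega
    exact_mod_cast this
  have hR : ∀ κ ∈ univ.filter (fun κ : ZMod p => κ ≠ 0), (Rt t κ).card ≤ t := by
    intro κ hκ
    refine le_trans ?_ (sum_R (p := p) (t := t) (by omega))
    exact Finset.single_le_sum (f := fun κ : ZMod p => (Rt t κ).card)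
      (fun _ _ => Nat.zero_le _) hκ
  have h1 : ∑ κ ∈ univ.filter (fun κ : ZMod p => κ ≠ 0), (Rt t κ).card ^ 2 ≤
      T₀ * t + ∑ τ ∈ Finset.Ioc T₀ t, 2 * τ * (Lev p t τ).card := by
    refine (Finset.sum_le_sum fun κ hκ => sq_le_level T₀ t _ (hR κ hκ)).trans ?_
    rw [Finset.sum_add_distrib, ← Finset.mul_sum]
    refine Nat.add_le_add (Nat.mul_le_mul_left _ (sum_R (by omega))) ?_
    rw [Finset.sum_comm]
    refine Finset.sum_le_sum fun τ _ => ?_
    rw [← Finset.sum_filter, Finset.sum_const, smul_eq_mul, mul_comm, Finset.filter_filter]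
    exact le_rfl
  have h2 : ∀ τ ∈ Finset.Ioc T₀ t, ((2 * τ * (Lev p t τ).card : ℕ) : ℝ) ≤
      35937 * (t : ℝ) ^ 2 * ((τ : ℝ) ^ 2)⁻¹ := by
    intro τ hτ
    rw [Finset.mem_Ioc] at hτ
    have h3 := level (p := p) (t := t) (τ := τ) (by omega) hτ.2
      (hT1.le.trans (Nat.pow_le_pow_left hτ.1.le 2)) hp2
    have hτ0 : (0 : ℝ) < τ := by
      have : 0 < τ := by omega
      exact_mod_cast this
    have h4 : (2 * (Lev p t τ).card : ℝ) * (τ : ℝ) ^ 3 ≤ 35937 * (t : ℝ) ^ 2 := by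
      exact_mod_cast h3
    rw [← div_eq_mul_inv, le_div_iff₀ (by positivity)]
    push_cast
    calc 2 * (τ : ℝ) * (Lev p t τ).card * (τ : ℝ) ^ 2 =
        (2 * (Lev p t τ).card : ℝ) * (τ : ℝ) ^ 3 := by ring
      _ ≤ _ := h4
  have h3 : (∑ κ ∈ univ.filter (fun κ : ZMod p => κ ≠ 0), ((Rt t κ).card : ℝ) ^ 2) ≤
      T₀ * t + ∑ τ ∈ Finset.Ioc T₀ t, 35937 * (t : ℝ) ^ 2 * ((τ : ℝ) ^ 2)⁻¹ := by
    have h4 : ((∑ κ ∈ univ.filter (fun κ : ZMod p => κ ≠ 0), (Rt t κ).card ^ 2 : ℕ) : ℝ) ≤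
        ((T₀ * t + ∑ τ ∈ Finset.Ioc T₀ t, 2 * τ * (Lev p t τ).card : ℕ) : ℝ) := by
      exact_mod_cast h1
    push_cast at h4
    refine h4.trans ?_
    refine add_le_add le_rfl (Finset.sum_le_sum fun τ hτ => ?_)
    have := h2 τ hτ
    push_cast at this
    exact this
  rw [← Finset.mul_sum] at h3
  have h5 : ∑ τ ∈ Finset.Ioc T₀ t, ((τ : ℝ) ^ 2)⁻¹ ≤ (T₀ : ℝ)⁻¹ := by
    rcases Nat.lt_or_ge t T₀ with h | h
    · rw [Finset.Ioc_eq_empty (by omega), Finset.sum_empty]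
      positivity
    · refine (sum_Ioc_inv_sq_le_sub (by omega) h).trans ?_
      have : (0 : ℝ) ≤ (t : ℝ)⁻¹ := by positivity
      linarith
  have h6 : (T₀ : ℝ)⁻¹ ≤ (Real.sqrt t)⁻¹ := inv_anti₀ (by linarith) hsT
  have hsq : Real.sqrt t * Real.sqrt t = t := Real.mul_self_sqrt htpos.le
  have hs1 : 0 < Real.sqrt t := by linarith
  have h7 : (t : ℝ) ^ 2 * (Real.sqrt t)⁻¹ = t * Real.sqrt t := by
    rw [← div_eq_mul_inv, div_eq_iff hs1.ne']
    calc (t : ℝ) ^ 2 = t * t := by ring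
      _ = t * (Real.sqrt t * Real.sqrt t) := by rw [hsq]
      _ = t * Real.sqrt t * Real.sqrt t := by ring
  have h8 : 35937 * (t : ℝ) ^ 2 * ∑ τ ∈ Finset.Ioc T₀ t, ((τ : ℝ) ^ 2)⁻¹ ≤
      35937 * (t * Real.sqrt t) := by
    calc 35937 * (t : ℝ) ^ 2 * ∑ τ ∈ Finset.Ioc T₀ t, ((τ : ℝ) ^ 2)⁻¹ ≤
        35937 * (t : ℝ) ^ 2 * (Real.sqrt t)⁻¹ :=
          mul_le_mul_of_nonneg_left (h5.trans h6) (by positivity)
      _ = 35937 * ((t : ℝ) ^ 2 * (Real.sqrt t)⁻¹) := by ring
      _ = _ := by rw [h7]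
  have h9 : (T₀ : ℝ) * t ≤ 2 * (t * Real.sqrt t) := by
    calc (T₀ : ℝ) * t ≤ 2 * Real.sqrt t * t := mul_le_mul_of_nonneg_right hTs htpos.le
      _ = _ := by ring
  linarith

end Pool.Agent.Helper87.SB
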