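import Mathlib
import Pool.Agent.Helper87.SB.Level
import Pool.Agent.Helper87.PA.Half2

/-!
# Energy of a subgroup, exponential sums, and cosets in the upper half of the residues
-/

set_option autoImplicit false

open Finset Polynomial

namespace Pool.Agent.Helper87.SB

open Pool.Agent.Helper87.PA2 (S)

variable {p : ℕ} [hp : Fact p.Prime]

/-- the number of representations of `c` as a difference -/
def rr (T : Finset (ZMod p)ˣ) (c : ZMod p) : ℕ :=
  ((T ×ˢ T).filter fun i => (i.1 : ZMod p) - (i.2 : ZMod p) = c).card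

/-- sums over pairs -/
theorem sum_pairs (T : Finset (ZMod p)ˣ) {M : Type*} [AddCommMonoid M] [Module ℕ M]
    (g : ZMod p → M) :
    ∑ i ∈ T ×ˢ T, g ((i.1 : ZMod p) - (i.2 : ZMod p)) = ∑ c : ZMod p, rr T c • g c := by
  classical
  rw [← Finset.sum_fiberwise (T ×ˢ T) (fun i => (i.1 : ZMod p) - (i.2 : ZMod p))]
  refine Finset.sum_congr rfl fun c _ => ?_
  rw [rr, ← Finset.sum_const]
  refine Finset.sum_congr rfl fun i hi => ?_
  rw [(Finset.mem_filter.1 hi).2]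

theorem rr_zero (T : Finset (ZMod p)ˣ) : rr T 0 = T.card := by
  classical
  unfold rr
  have h1 : (T ×ˢ T).filter (fun i => (i.1 : ZMod p) - (i.2 : ZMod p) = 0) =
      T.image (fun u => (u, u)) := by
    ext ⟨u, v⟩
    rw [Finset.mem_filter, Finset.mem_product, Finset.mem_image, sub_eq_zero]
    constructor
    · rintro ⟨⟨h1, _⟩, h3⟩
      exact ⟨u, h1, Prod.ext rfl (Units.ext h3)⟩
    · rintro ⟨w, hw, h⟩
      rw [Prod.mk.injEq] at h
      rw [← h.1, ← h.2]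
      exact ⟨⟨hw, hw⟩, rfl⟩
  rw [h1, Finset.card_image_of_injective _ (fun u v h => (Prod.mk.injEq _ _ _ _ ▸ h).1)]

/-- a difference in a subgroup of order `t` -/
theorem rr_le {t : ℕ} (T : Finset (ZMod p)ˣ) (hT : ∀ u ∈ T, u ^ t = 1) {c : ZMod p}
    (hc : c ≠ 0) : rr T c ≤ (Rt t ((c⁻¹) ^ t)).card := by
  classical
  unfold rr
  refine Finset.card_le_card_of_injOn (fun i => (i.2 : ZMod p) * c⁻¹) ?_ ?_
  · rintro ⟨u, v⟩ h
    rw [Finset.mem_coe, Finset.mem_filter, Finset.mem_product] at h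
    obtain ⟨⟨hu, hv⟩, huv⟩ := h
    have e1 : ((u : ZMod p)) ^ t = 1 := by
      rw [← Units.val_pow_eq_pow_val, hT u hu, Units.val_one]
    have e2 : ((v : ZMod p)) ^ t = 1 := by
      rw [← Units.val_pow_eq_pow_val, hT v hv, Units.val_one]
    rw [Finset.mem_coe, Rt, Finset.mem_filter]
    refine ⟨mem_univ _, ?_, ?_⟩
    · simp only
      rw [mul_pow, e2, one_mul]
    · simp only at huv ⊢
      have e3 : (v : ZMod p) * c⁻¹ + 1 = (u : ZMod p) * c⁻¹ := by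
        have h1 : (u : ZMod p) = c + v := by rw [← huv]; ring
        rw [h1, add_mul, mul_inv_cancel₀ hc, add_comm]
      rw [e3, mul_pow, e1, one_mul]
  · rintro ⟨u, v⟩ h ⟨u', v'⟩ h' heq
    rw [Finset.mem_coe, Finset.mem_filter] at h h'
    simp only at heq h h'
    have e1 : (v : ZMod p) = v' := mul_right_cancel₀ (inv_ne_zero hc) heq
    have e2 : (u : ZMod p) = u' := by
      have h1 : (u : ZMod p) = c + v := by rw [← h.2]; ring
      have h2 : (u' : ZMod p) = c + v' := by rw [← h'.2]; ring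
      rw [h1, h2, e1]
    exact Prod.ext (Units.ext e2) (Units.ext e1)

/-- the energy -/
theorem energy {t : ℕ} (ht : 17424 ≤ t) (hp2 : 1089 * t ^ 3 ≤ p ^ 2) (T : Finset (ZMod p)ˣ)
    (hT : ∀ u ∈ T, u ^ t = 1) (hc : T.card = t) :
    ∑ c : ZMod p, ((rr T c : ℕ) : ℝ) ^ 2 ≤ 35940 * ((t : ℝ) ^ 2 * Real.sqrt t) := by
  classical
  have ht0 : 0 < t := by omega
  have htr : (0 : ℝ) < t := by exact_mod_cast ht0
  have hs1 : (1 : ℝ) ≤ Real.sqrt t := by
    rw [Real.one_le_sqrt]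
    have : (17424 : ℝ) ≤ t := by exact_mod_cast ht
    linarith
  rw [← Finset.add_sum_erase univ _ (mem_univ (0 : ZMod p)), rr_zero, hc]
  have h1 : ∑ c ∈ univ.erase (0 : ZMod p), ((rr T c : ℕ) : ℝ) ^ 2 ≤
      ∑ c ∈ univ.erase (0 : ZMod p), ((Rt t ((c⁻¹) ^ t)).card : ℝ) ^ 2 := by
    refine Finset.sum_le_sum fun c hc => ?_
    have h2 := rr_le T hT (Finset.ne_of_mem_erase hc)
    have h3 : ((rr T c : ℕ) : ℝ) ≤ ((Rt t ((c⁻¹) ^ t)).card : ℝ) := by exact_mod_cast h2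
    exact pow_le_pow_left₀ (Nat.cast_nonneg _) h3 2
  have h2 : ∑ c ∈ univ.erase (0 : ZMod p), ((Rt t ((c⁻¹) ^ t)).card : ℝ) ^ 2 ≤
      ∑ κ ∈ univ.filter (fun κ : ZMod p => κ ≠ 0), (t : ℝ) * ((Rt t κ).card : ℝ) ^ 2 := by
    rw [← Finset.sum_fiberwise_of_maps_to (s := univ.erase (0 : ZMod p))
      (t := univ.filter (fun κ : ZMod p => κ ≠ 0)) (g := fun c => (c⁻¹) ^ t)]
    · refine Finset.sum_le_sum fun κ hκ => ?_
      have h3 : ∑ c ∈ (univ.erase (0 : ZMod p)).filter (fun c => (c⁻¹) ^ t = κ),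
          ((Rt t ((c⁻¹) ^ t)).card : ℝ) ^ 2 =
          (((univ.erase (0 : ZMod p)).filter (fun c => (c⁻¹) ^ t = κ)).card : ℝ) *
            ((Rt t κ).card : ℝ) ^ 2 := by
        rw [← nsmul_eq_mul, ← Finset.sum_const]
        refine Finset.sum_congr rfl fun c hc => ?_
        rw [(Finset.mem_filter.1 hc).2]
      rw [h3]
      refine mul_le_mul_of_nonneg_right ?_ (by positivity)
      have h4 : ((univ.erase (0 : ZMod p)).filter (fun c => (c⁻¹) ^ t = κ)).card ≤ t := by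
        rw [← Finset.card_image_of_injective _ (inv_injective (G := ZMod p))]
        refine (card_le_card ?_).trans ((Multiset.toFinset_card_le (nthRoots t κ)).trans
          (card_nthRoots t κ))
        intro z hz
        rw [Finset.mem_image] at hz
        obtain ⟨c, hc, rfl⟩ := hz
        rw [Multiset.mem_toFinset, mem_nthRoots ht0]
        exact (Finset.mem_filter.1 hc).2
      exact_mod_cast h4
    · intro c hc
      rw [Finset.mem_filter]
      exact ⟨mem_univ _, pow_ne_zero t (inv_ne_zero (Finset.ne_of_mem_erase hc))⟩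
  rw [← Finset.mul_sum] at h2
  have h3 := sum_sq (p := p) ht hp2
  have h4 : (t : ℝ) * ∑ κ ∈ univ.filter (fun κ : ZMod p => κ ≠ 0), ((Rt t κ).card : ℝ) ^ 2 ≤
      (t : ℝ) * (35939 * (t * Real.sqrt t)) := mul_le_mul_of_nonneg_left h3 htr.le
  have h5 : (t : ℝ) ^ 2 ≤ (t : ℝ) ^ 2 * Real.sqrt t := by
    calc (t : ℝ) ^ 2 = (t : ℝ) ^ 2 * 1 := (mul_one _).symm
      _ ≤ (t : ℝ) ^ 2 * Real.sqrt t := mul_le_mul_of_nonneg_left hs1 (by positivity)
  have h6 : (t : ℝ) * (35939 * (t * Real.sqrt t)) = 35939 * ((t : ℝ) ^ 2 * Real.sqrt t) := by ring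
  linarith

/-- Parseval for a function with real values -/
theorem parseval (r : ZMod p → ℝ) :
    ∑ b : ZMod p, ‖∑ c : ZMod p, (r c : ℂ) * ZMod.stdAddChar (b * c)‖ ^ 2 =
      p * ∑ c : ZMod p, r c ^ 2 := by
  classical
  have h1 : ∀ b : ZMod p, ((‖∑ c : ZMod p, (r c : ℂ) * ZMod.stdAddChar (b * c)‖ ^ 2 : ℝ) : ℂ) =
      ∑ c : ZMod p, ∑ d : ZMod p, (r c : ℂ) * (r d : ℂ) * ZMod.stdAddChar (b * (c - d)) := by
    intro b
    push_cast
    rw [← Complex.mul_conj', map_sum, Finset.sum_mul_sum]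
    refine Finset.sum_congr rfl fun c _ => Finset.sum_congr rfl fun d _ => ?_
    have h3 : (starRingEnd ℂ) ((r d : ℂ) * ZMod.stdAddChar (b * d)) =
        (r d : ℂ) * ZMod.stdAddChar (-(b * d)) := by
      rw [RingHom.map_mul, Complex.conj_ofReal, AddChar.map_neg_eq_conj]
    have h2 : b * (c - d) = b * c + -(b * d) := by ring
    rw [h3, h2, AddChar.map_add_eq_mul]
    ring
  have h2 : ((∑ b : ZMod p, ‖∑ c : ZMod p, (r c : ℂ) * ZMod.stdAddChar (b * c)‖ ^ 2 : ℝ) : ℂ) =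
      ((p * ∑ c : ZMod p, r c ^ 2 : ℝ) : ℂ) := by
    push_cast at h1 ⊢
    rw [Finset.sum_congr rfl fun b _ => h1 b, Finset.sum_comm, Finset.mul_sum]
    refine Finset.sum_congr rfl fun c _ => ?_
    rw [Finset.sum_comm]
    have h3 : ∀ d : ZMod p, ∑ b : ZMod p, (r c : ℂ) * (r d : ℂ) *
        ZMod.stdAddChar (b * (c - d)) = if d = c then (p : ℂ) * (r c : ℂ) ^ 2 else 0 := by
      intro d
      rw [← Finset.mul_sum, AddChar.sum_mulShift _ (ZMod.isPrimitive_stdAddChar p), ZMod.card]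
      by_cases h : d = c
      · subst h
        simp
        ring
      · have : c - d ≠ 0 := sub_ne_zero.2 fun h' => h h'.symm
        simp [h, this]
    rw [Finset.sum_congr rfl fun d _ => h3 d, Finset.sum_ite_eq' univ c]
    simp
  exact_mod_cast h2

theorem norm_sq_S (T : Finset (ZMod p)ˣ) (b : ZMod p) :
    ((‖S T b‖ ^ 2 : ℝ) : ℂ) = ∑ i ∈ T ×ˢ T, ZMod.stdAddChar (b * ((i.1 : ZMod p) - (i.2 : ZMod p))) := by
  push_cast
  rw [← Complex.mul_conj']
  unfold Pool.Agent.Helper87.PA2.S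
  rw [map_sum, Finset.sum_mul_sum, Finset.sum_product]
  refine Finset.sum_congr rfl fun t _ => Finset.sum_congr rfl fun u _ => ?_
  rw [← AddChar.map_neg_eq_conj, ← AddChar.map_add_eq_mul]
  congr 1
  ring

theorem sum_four (T : Finset (ZMod p)ˣ) :
    ∑ b : ZMod p, ‖S T b‖ ^ 4 = p * ∑ c : ZMod p, ((rr T c : ℕ) : ℝ) ^ 2 := by
  rw [← parseval]
  refine Finset.sum_congr rfl fun b _ => ?_
  have h1 := norm_sq_S T b
  rw [sum_pairs T (fun c => (ZMod.stdAddChar (b * c) : ℂ))] at h1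
  have h2 : (∑ c : ZMod p, (((rr T c : ℕ) : ℝ) : ℂ) * ZMod.stdAddChar (b * c)) =
      ((‖S T b‖ ^ 2 : ℝ) : ℂ) := by
    rw [h1]
    refine Finset.sum_congr rfl fun c _ => ?_
    rw [nsmul_eq_mul]
    push_cast
    ring
  rw [h2, Complex.norm_real, Real.norm_of_nonneg (by positivity)]
  ring

/-- Hoelder -/
theorem norm_eight (T : Finset (ZMod p)ˣ) (hT : ∀ t ∈ T, ∀ u ∈ T, t * u ∈ T) (hne : T.Nonempty)
    (a : (ZMod p)ˣ) :
    ‖S T (a : ZMod p)‖ ^ 8 ≤ p * (∑ c : ZMod p, ((rr T c : ℕ) : ℝ) ^ 2) ^ 2 := by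
  classical
  obtain ⟨E, hE⟩ : ∃ E, E = ∑ c : ZMod p, ((rr T c : ℕ) : ℝ) ^ 2 := ⟨_, rfl⟩
  obtain ⟨t, ht⟩ : ∃ t : ℝ, t = T.card := ⟨_, rfl⟩
  have htpos : 0 < t := by
    rw [ht]
    exact_mod_cast Finset.card_pos.2 hne
  -- invariance
  have hinv : ∀ h ∈ T, S T ((a : ZMod p) * (h : ZMod p)) = S T (a : ZMod p) := by
    intro h hh
    have himg : T.image (fun u => h * u) = T := by
      refine Finset.eq_of_subset_of_card_le ?_ ?_
      · intro u hu
        rw [Finset.mem_image] at hu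
        obtain ⟨v, hv, rfl⟩ := hu
        exact hT h hh v hv
      · rw [Finset.card_image_of_injective _ (mul_right_injective h)]
    unfold Pool.Agent.Helper87.PA2.S
    conv_rhs => rw [← himg]
    rw [Finset.sum_image (fun u _ v _ huv => mul_left_cancel huv)]
    refine Finset.sum_congr rfl fun u _ => ?_
    rw [Units.val_mul, mul_assoc]
  have h1 : t * ‖S T (a : ZMod p)‖ ^ 2 ≤
      ∑ i ∈ T ×ˢ T, ‖S T ((a : ZMod p) * ((i.1 : ZMod p) - (i.2 : ZMod p)))‖ := by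
    have e1 : ((t * ‖S T (a : ZMod p)‖ ^ 2 : ℝ) : ℂ) =
        ∑ i ∈ T ×ˢ T, S T ((a : ZMod p) * ((i.1 : ZMod p) - (i.2 : ZMod p))) := by
      have e2 : ∀ h ∈ T, ((‖S T (a : ZMod p)‖ ^ 2 : ℝ) : ℂ) =
          ∑ i ∈ T ×ˢ T, ZMod.stdAddChar (((a : ZMod p) * (h : ZMod p)) *
            ((i.1 : ZMod p) - (i.2 : ZMod p))) := by
        intro h hh
        rw [← norm_sq_S, hinv h hh]
      have e3 : ((t * ‖S T (a : ZMod p)‖ ^ 2 : ℝ) : ℂ) =
          ∑ h ∈ T, ((‖S T (a : ZMod p)‖ ^ 2 : ℝ) : ℂ) := by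
        rw [Finset.sum_const, nsmul_eq_mul, ht]
        push_cast
        ring
      rw [e3, Finset.sum_congr rfl e2, Finset.sum_comm]
      refine Finset.sum_congr rfl fun i _ => ?_
      unfold Pool.Agent.Helper87.PA2.S
      refine Finset.sum_congr rfl fun h _ => ?_
      congr 1
      ring
    have e4 : ‖((t * ‖S T (a : ZMod p)‖ ^ 2 : ℝ) : ℂ)‖ = t * ‖S T (a : ZMod p)‖ ^ 2 := by
      rw [Complex.norm_real, Real.norm_of_nonneg (by positivity)]
    rw [← e4, e1]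
    exact norm_sum_le _ _
  -- first Cauchy-Schwarz
  have h2 : (t * ‖S T (a : ZMod p)‖ ^ 2) ^ 2 ≤
      t ^ 2 * ∑ i ∈ T ×ˢ T, ‖S T ((a : ZMod p) * ((i.1 : ZMod p) - (i.2 : ZMod p)))‖ ^ 2 := by
    refine (pow_le_pow_left₀ (by positivity) h1 2).trans ?_
    have h3 := sq_sum_le_card_mul_sum_sq (s := T ×ˢ T)
      (f := fun i => ‖S T ((a : ZMod p) * ((i.1 : ZMod p) - (i.2 : ZMod p)))‖)
    rw [Finset.card_product] at h3
    push_cast at h3
    rw [ht, pow_two (T.card : ℝ)]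
    exact h3
  have h3 : ‖S T (a : ZMod p)‖ ^ 4 ≤
      ∑ c : ZMod p, ((rr T c : ℕ) : ℝ) * ‖S T ((a : ZMod p) * c)‖ ^ 2 := by
    have e1 := sum_pairs T (fun c => ‖S T ((a : ZMod p) * c)‖ ^ 2)
    rw [e1] at h2
    have e2 : (t * ‖S T (a : ZMod p)‖ ^ 2) ^ 2 = t ^ 2 * ‖S T (a : ZMod p)‖ ^ 4 := by ring
    rw [e2] at h2
    have e3 := le_of_mul_le_mul_left h2 (by positivity)
    refine e3.trans (le_of_eq ?_)
    refine Finset.sum_congr rfl fun c _ => ?_
    rw [nsmul_eq_mul]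
  -- second Cauchy-Schwarz
  have h4 : (∑ c : ZMod p, ((rr T c : ℕ) : ℝ) * ‖S T ((a : ZMod p) * c)‖ ^ 2) ^ 2 ≤
      E * (p * E) := by
    refine (Finset.sum_mul_sq_le_sq_mul_sq univ _ _).trans ?_
    rw [← hE]
    have e1 : ∑ c : ZMod p, (‖S T ((a : ZMod p) * c)‖ ^ 2) ^ 2 = p * E := by
      rw [hE, ← sum_four]
      refine Fintype.sum_bijective (fun c => (a : ZMod p) * c) ?_ _ _ fun c => ?_
      · refine Function.bijective_iff_has_inverse.2 ⟨fun c => ((a⁻¹ : (ZMod p)ˣ) : ZMod p) * c,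
          fun c => ?_, fun c => ?_⟩
        · simp only
          rw [← mul_assoc, Units.inv_mul, one_mul]
        · simp only
          rw [← mul_assoc, Units.mul_inv, one_mul]
      · ring
    rw [e1]
  have h5 : ‖S T (a : ZMod p)‖ ^ 8 = (‖S T (a : ZMod p)‖ ^ 4) ^ 2 := by ring
  rw [h5, ← hE]
  calc (‖S T (a : ZMod p)‖ ^ 4) ^ 2 ≤ (∑ c : ZMod p, ((rr T c : ℕ) : ℝ) *
        ‖S T ((a : ZMod p) * c)‖ ^ 2) ^ 2 := pow_le_pow_left₀ (by positivity) h3 2
    _ ≤ E * (p * E) := h4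
    _ = p * E ^ 2 := by ring

end Pool.Agent.Helper87.SB
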