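import Mathlib
import Pool.Agent.Helper87.SB.Energy
import Pool.Agent.Helper87.PA.Cols3

/-!
# A coset of a subgroup of order `t` in the upper half of the residues modulo `p`: `t ^ 3 ≤ 10 ^ 13 p`
-/

set_option autoImplicit false

open Finset

namespace Pool.Agent.Helper87.SB

open Pool.Agent.Helper68.CO2 Pool.Agent.Helper87.PA2

/-- a coset inside the upper half forces a large exponential sum -/
theorem half_bound_norm {n : ℕ} [hn : NeZero n] (T : Finset (ZMod n)ˣ)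
    (x : (ZMod n)ˣ) (hx : ∀ t ∈ T, n < 2 * ((x : ZMod n) * (t : ZMod n)).val) :
    (T.card : ℝ) ≤ 2 * ‖S T (x : ZMod n)‖ + ‖S T (2 * (x : ZMod n))‖ := by
  have hn0 : (0 : ℝ) < n := by exact_mod_cast Nat.pos_of_ne_zero hn.out
  obtain ⟨θ, hθ⟩ : ∃ θ : (ZMod n)ˣ → ℝ,
      ∀ t : (ZMod n)ˣ, θ t = 2 * Real.pi * (((x : ZMod n) * (t : ZMod n)).val : ℝ) / n :=
    ⟨_, fun _ => rfl⟩
  have e1 : ∀ t : (ZMod n)ˣ, (ZMod.stdAddChar ((x : ZMod n) * (t : ZMod n)) : ℂ) =
      Complex.exp ((θ t : ℂ) * Complex.I) := by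
    intro t
    rw [char_val, hθ]
  have e2 : ∀ t : (ZMod n)ˣ, (ZMod.stdAddChar ((2 * (x : ZMod n)) * (t : ZMod n)) : ℂ) =
      Complex.exp (((2 * θ t : ℝ) : ℂ) * Complex.I) := by
    intro t
    have : (2 * (x : ZMod n)) * (t : ZMod n) =
        (x : ZMod n) * (t : ZMod n) + (x : ZMod n) * (t : ZMod n) := by ring
    rw [this, AddChar.map_add_eq_mul, e1, ← Complex.exp_add]
    congr 1
    push_cast
    ring
  have i1 : (S T (x : ZMod n)).im = ∑ t ∈ T, Real.sin (θ t) := by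
    unfold S
    rw [Complex.im_sum]
    refine Finset.sum_congr rfl fun t _ => ?_
    rw [e1, Complex.exp_ofReal_mul_I_im]
  have i2 : (S T (2 * (x : ZMod n))).re = ∑ t ∈ T, Real.cos (2 * θ t) := by
    unfold S
    rw [Complex.re_sum]
    refine Finset.sum_congr rfl fun t _ => ?_
    rw [e2, Complex.exp_ofReal_mul_I_re]
  have s1 : ∀ t ∈ T, (1 - Real.cos (2 * θ t)) / 2 ≤ - Real.sin (θ t) := by
    intro t ht
    have h3 : Real.pi < θ t := by
      rw [hθ, lt_div_iff₀ hn0]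
      have h4 : (n : ℝ) < 2 * (((x : ZMod n) * (t : ZMod n)).val : ℝ) := by exact_mod_cast hx t ht
      have := Real.pi_pos
      nlinarith
    have h5 : θ t < 2 * Real.pi := by
      rw [hθ, div_lt_iff₀ hn0]
      have h4 : (((x : ZMod n) * (t : ZMod n)).val : ℝ) < n := by exact_mod_cast ZMod.val_lt _
      have := Real.pi_pos
      nlinarith
    have h6 : Real.sin (θ t) ≤ 0 := by
      have h7 : Real.sin (θ t) = - Real.sin (θ t - Real.pi) := by
        rw [Real.sin_sub_pi]; ring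
      rw [h7]
      have := Real.sin_nonneg_of_nonneg_of_le_pi (x := θ t - Real.pi) (by linarith) (by linarith)
      linarith
    have h8 := Real.neg_one_le_sin (θ t)
    have h9 := Real.cos_two_mul (θ t)
    have h10 := Real.sin_sq_add_cos_sq (θ t)
    nlinarith
  have h3 := Finset.sum_le_sum s1
  rw [Finset.sum_neg_distrib, ← i1, ← Finset.sum_div, Finset.sum_sub_distrib, ← i2] at h3
  simp only [Finset.sum_const, nsmul_eq_mul, mul_one] at h3
  have h4 : -(S T (x : ZMod n)).im ≤ ‖S T (x : ZMod n)‖ :=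
    (neg_le_abs _).trans (Complex.abs_im_le_norm _)
  have h5 : (S T (2 * (x : ZMod n))).re ≤ ‖S T (2 * (x : ZMod n))‖ :=
    (le_abs_self _).trans (Complex.re_le_norm _ |> fun h => by
      exact (abs_le.2 ⟨by
        have := Complex.abs_re_le_norm (S T (2 * (x : ZMod n)))
        exact (abs_le.1 this).1, h⟩))
  linarith

/-- numerics -/
theorem third_num {p t : ℕ} (hp0 : 0 < p) (h9 : t ^ 2 ≤ 9 * p)
    (hbig : 17424 ≤ t → 1089 * t ^ 3 ≤ p ^ 2 →
      (t : ℝ) ^ 8 ≤ 6561 * (35940 ^ 2 * (p * (t : ℝ) ^ 5))) : t ^ 3 ≤ 10 ^ 13 * p := by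
  rcases Nat.lt_or_ge t 17424 with h | h
  · calc t ^ 3 ≤ 17424 ^ 3 := Nat.pow_le_pow_left h.le 3
      _ ≤ 10 ^ 13 * 1 := by norm_num
      _ ≤ 10 ^ 13 * p := Nat.mul_le_mul_left _ hp0
  · rcases Nat.lt_or_ge (p ^ 2) (1089 * t ^ 3) with h1 | h1
    · have h2 : p * p < p * (9801 * t) := by
        calc p * p = p ^ 2 := by ring
          _ < 1089 * t ^ 3 := h1
          _ = 1089 * t * t ^ 2 := by ring
          _ ≤ 1089 * t * (9 * p) := Nat.mul_le_mul_left _ h9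
          _ = p * (9801 * t) := by ring
      have h3 : p < 9801 * t := Nat.lt_of_mul_lt_mul_left h2
      have h4 : t * t < t * 88209 := by
        calc t * t = t ^ 2 := by ring
          _ ≤ 9 * p := h9
          _ < 9 * (9801 * t) := Nat.mul_lt_mul_of_pos_left h3 (by norm_num)
          _ = t * 88209 := by ring
      have h5 : t < 88209 := Nat.lt_of_mul_lt_mul_left h4
      calc t ^ 3 = t * t ^ 2 := by ring
        _ ≤ 88209 * (9 * p) := Nat.mul_le_mul h5.le h9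
        _ ≤ 10 ^ 13 * p := by
          have : 88209 * (9 * p) = 793881 * p := by ring
          rw [this]
          exact Nat.mul_le_mul_right p (by norm_num)
    · have h2 := hbig h h1
      have ht : (0 : ℝ) < t := by
        have : 0 < t := by omega
        exact_mod_cast this
      have h3 : (t : ℝ) ^ 5 * (t : ℝ) ^ 3 ≤ (t : ℝ) ^ 5 * (10 ^ 13 * p) := by
        calc (t : ℝ) ^ 5 * (t : ℝ) ^ 3 = (t : ℝ) ^ 8 := by ring
          _ ≤ 6561 * (35940 ^ 2 * (p * (t : ℝ) ^ 5)) := h2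
          _ = (6561 * 35940 ^ 2) * (p * (t : ℝ) ^ 5) := by ring
          _ ≤ 10 ^ 13 * (p * (t : ℝ) ^ 5) := by
            refine mul_le_mul_of_nonneg_right (by norm_num) (by positivity)
          _ = (t : ℝ) ^ 5 * (10 ^ 13 * p) := by ring
      have h4 := le_of_mul_le_mul_left h3 (by positivity)
      exact_mod_cast h4

/-- the order of a subgroup with a coset in the upper half -/
theorem third {p : ℕ} [hp : Fact p.Prime] (hodd : Odd p) (T : Finset (ZMod p)ˣ)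
    (hT : ∀ t ∈ T, ∀ u ∈ T, t * u ∈ T) (hpow : ∀ u ∈ T, u ^ T.card = 1)
    (x : (ZMod p)ˣ) (hx : ∀ t ∈ T, p < 2 * ((x : ZMod p) * (t : ZMod p)).val) :
    T.card ^ 3 ≤ 10 ^ 13 * p := by
  rcases T.eq_empty_or_nonempty with hne | hne
  · rw [hne]
    simp
  obtain ⟨t, ht⟩ : ∃ t, t = T.card := ⟨_, rfl⟩
  rw [← ht] at hpow ⊢
  refine third_num hp.out.pos ?_ ?_
  · have h1 := half_bound hodd T hT x hx
    rw [← ht] at h1
    have h2 : (t : ℝ) ^ 2 ≤ (3 * Real.sqrt p) ^ 2 := pow_le_pow_left₀ (Nat.cast_nonneg _) h1 2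
    rw [mul_pow, Real.sq_sqrt (Nat.cast_nonneg _)] at h2
    have h3 : ((t ^ 2 : ℕ) : ℝ) ≤ ((9 * p : ℕ) : ℝ) := by
      push_cast
      linarith
    exact_mod_cast h3
  · intro hbig hp2
    obtain ⟨w, hw⟩ : ∃ w : (ZMod p)ˣ, (w : ZMod p) = 2 := by
      have hc : Nat.Coprime 2 p := Nat.coprime_two_left.2 hodd
      refine ⟨ZMod.unitOfCoprime 2 hc, ?_⟩
      rw [ZMod.coe_unitOfCoprime]
      norm_num
    have hE := energy hbig hp2 T hpow ht.symm
    have hE2 : (∑ c : ZMod p, ((rr T c : ℕ) : ℝ) ^ 2) ^ 2 ≤ 35940 ^ 2 * (t : ℝ) ^ 5 := by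
      have h0 : 0 ≤ ∑ c : ZMod p, ((rr T c : ℕ) : ℝ) ^ 2 :=
        Finset.sum_nonneg fun _ _ => by positivity
      refine (pow_le_pow_left₀ h0 hE 2).trans (le_of_eq ?_)
      rw [mul_pow, mul_pow, Real.sq_sqrt (Nat.cast_nonneg _)]
      ring
    have hp0 : (0 : ℝ) ≤ p := Nat.cast_nonneg _
    have b1 : ‖S T (x : ZMod p)‖ ^ 8 ≤ 35940 ^ 2 * (p * (t : ℝ) ^ 5) := by
      refine (norm_eight T hT hne x).trans ?_
      calc (p : ℝ) * (∑ c : ZMod p, ((rr T c : ℕ) : ℝ) ^ 2) ^ 2 ≤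
          p * (35940 ^ 2 * (t : ℝ) ^ 5) := mul_le_mul_of_nonneg_left hE2 hp0
        _ = _ := by ring
    have b2 : ‖S T (2 * (x : ZMod p))‖ ^ 8 ≤ 35940 ^ 2 * (p * (t : ℝ) ^ 5) := by
      have h1 := norm_eight T hT hne (w * x)
      rw [Units.val_mul, hw] at h1
      refine h1.trans ?_
      calc (p : ℝ) * (∑ c : ZMod p, ((rr T c : ℕ) : ℝ) ^ 2) ^ 2 ≤
          p * (35940 ^ 2 * (t : ℝ) ^ 5) := mul_le_mul_of_nonneg_left hE2 hp0
        _ = _ := by ring
    have h3 := half_bound_norm T x hx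
    rw [← ht] at h3
    obtain ⟨M, hM⟩ : ∃ M, M = max ‖S T (x : ZMod p)‖ ‖S T (2 * (x : ZMod p))‖ := ⟨_, rfl⟩
    have hM1 : ‖S T (x : ZMod p)‖ ≤ M := by rw [hM]; exact le_max_left _ _
    have hM2 : ‖S T (2 * (x : ZMod p))‖ ≤ M := by rw [hM]; exact le_max_right _ _
    have hM8 : M ^ 8 ≤ 35940 ^ 2 * (p * (t : ℝ) ^ 5) := by
      rcases max_choice ‖S T (x : ZMod p)‖ ‖S T (2 * (x : ZMod p))‖ with h | h
      · rw [hM, h]; exact b1
      · rw [hM, h]; exact b2
    have h4 : (t : ℝ) ≤ 3 * M := by linarith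
    calc (t : ℝ) ^ 8 ≤ (3 * M) ^ 8 := pow_le_pow_left₀ (Nat.cast_nonneg _) h4 8
      _ = 6561 * M ^ 8 := by ring
      _ ≤ 6561 * (35940 ^ 2 * (p * (t : ℝ) ^ 5)) := mul_le_mul_of_nonneg_left hM8 (by norm_num)

/-- the stabilizer -/
theorem stab_third {A : Type*} [CommGroup A] {n : ℕ} [hp : Fact n.Prime] [hn : Fact (1 < n)]
    (hodd : Odd n) {f : ℕ → A} (hf : CM f) (h2 : U n 2 ∉ HH n f hf) :
    (Nat.card (HH n f hf)) ^ 3 ≤ 10 ^ 13 * n := by
  classical
  have hc2 : Nat.Coprime 2 n := Nat.coprime_two_left.2 hodd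
  have hn1 := hn.out
  have hn3 : 2 < n := by
    rcases hodd with ⟨m, hm⟩
    omega
  rw [mem_HH, FF_U f hc2 hn3] at h2
  push Not at h2
  obtain ⟨x, hx⟩ := h2
  have hupper : ∀ v : (ZMod n)ˣ, FF n f (U n 2 * v) ≠ f 2 * FF n f v →
      n < 2 * (v : ZMod n).val := by
    intro v hv
    by_contra hle
    push Not at hle
    apply hv
    apply FF_small hf (by norm_num) hc2
    rcases Nat.lt_or_ge (2 * (v : ZMod n).val) n with h | h
    · exact h
    · exfalso
      have h3 : 2 * (v : ZMod n).val = n := le_antisymm hle h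
      rcases hodd with ⟨m, hm⟩
      omega
  have hclosed : ∀ h ∈ HH n f hf, FF n f (U n 2 * (x * h)) ≠ f 2 * FF n f (x * h) := by
    intro h hh he
    apply hx
    rw [mul_comm x h] at he
    exact transport hf hh he
  obtain ⟨T, hT⟩ : ∃ T : Finset (ZMod n)ˣ, T = univ.filter (fun h => h ∈ HH n f hf) := ⟨_, rfl⟩
  have hTm : ∀ h, h ∈ T ↔ h ∈ HH n f hf := by
    intro h
    rw [hT, mem_filter]
    exact ⟨fun h => h.2, fun h => ⟨mem_univ _, h⟩⟩
  have hTc : T.card = Nat.card (HH n f hf) := by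
    rw [hT, Nat.card_eq_fintype_card, Fintype.card_subtype]
  rw [← hTc]
  refine third hodd T ?_ ?_ x ?_
  · intro t ht u hu
    rw [hTm] at ht hu ⊢
    exact (HH n f hf).mul_mem ht hu
  · intro u hu
    rw [hTm] at hu
    rw [hTc]
    have h5 := pow_card_eq_one' (x := (⟨u, hu⟩ : HH n f hf))
    have h6 : (((⟨u, hu⟩ : HH n f hf) ^ Nat.card (HH n f hf) : HH n f hf) : (ZMod n)ˣ) = 1 := by
      rw [h5]; rfl
    exact h6
  · intro t ht
    rw [hTm] at ht
    have := hupper _ (hclosed t ht)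
    rw [Units.val_mul] at this
    exact this

end Pool.Agent.Helper87.SB
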