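import Mathlib
import Pool.Agent.Helper87.SB.Third

/-!
# Failing columns for all prime powers, with the exponent 1 / 3
-/

set_option autoImplicit false

open Finset

namespace Pool.Agent.Helper87.SB

open Pool.Agent.Helper68.CO2 Pool.Agent.Helper87.PA2

/-- odd prime powers: the set of failing columns -/
theorem fail_pp_third {p e : ℕ} (hp : p.Prime) (h2 : p ≠ 2) :
    ∃ D : ℕ, Odd D ∧ D ∣ p - 1 ∧ (D : ℝ) ≤ 3 * Real.sqrt ((p ^ (e + 1) : ℕ) : ℝ) ∧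
      (e = 0 → D ^ 3 ≤ 10 ^ 13 * p ^ (e + 1)) ∧
      (∀ k₁ k₂ : ℕ, (1 ≤ k₁ ∧ k₁ < p ^ (e + 1) ∧ ¬ p ∣ k₁ ∧
          ¬ Mixed (p ^ (e + 1)) k₁ (p ^ (e + 1))) →
        (1 ≤ k₂ ∧ k₂ < p ^ (e + 1) ∧ ¬ p ∣ k₂ ∧ ¬ Mixed (p ^ (e + 1)) k₂ (p ^ (e + 1))) →
        k₁ ^ D ≡ k₂ ^ D [MOD p ^ (e + 1)]) ∧
      {k : ℕ | 1 ≤ k ∧ k < p ^ (e + 1) ∧ ¬ p ∣ k ∧
        ¬ Mixed (p ^ (e + 1)) k (p ^ (e + 1))}.ncard ≤ D := by
  classical
  have h1n := one_lt_pp (e := e) hp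
  have hFact : Fact (1 < p ^ (e + 1)) := ⟨h1n⟩
  have hNZ : NeZero (p ^ (e + 1)) := ⟨by omega⟩
  have hodd : Odd (p ^ (e + 1)) := (hp.odd_of_ne_two h2).pow
  have hcop : ∀ k, ¬ p ∣ k ↔ Nat.Coprime k (p ^ (e + 1)) := by
    intro k
    constructor
    · intro h
      exact Nat.Coprime.pow_right _ ((Nat.Prime.coprime_iff_not_dvd hp).2 h).symm
    · intro h
      have h4 : Nat.Coprime k p := Nat.Coprime.coprime_dvd_right (dvd_pow_self p (by omega)) h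
      exact (Nat.Prime.coprime_iff_not_dvd hp).1 h4.symm
  by_cases hE : e ≠ 0 ∨ 7 ≤ p
  · have hnot := two_not_mem hp h2 hE
    obtain ⟨c1, c2⟩ := stab_card hodd cm_lam hnot
    refine ⟨Nat.card (HH (p ^ (e + 1)) lam cm_lam), odd_card_of hp h2 _ c2, ?_, c1, ?_, ?_, ?_⟩
    · have h3 := Subgroup.card_subgroup_dvd_card (HH (p ^ (e + 1)) lam cm_lam)
      rw [Nat.card_eq_fintype_card (α := (ZMod (p ^ (e + 1)))ˣ), ZMod.card_units_eq_totient,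
        Nat.totient_prime_pow hp (Nat.succ_pos e), Nat.succ_sub_one] at h3
      rcases Nat.eq_zero_or_pos e with he | he
      · subst he
        rw [pow_zero, one_mul] at h3
        exact h3
      · have h4 := stab_not_dvd hp h2 he cm_lam hnot
        have h5 : Nat.Coprime (Nat.card (HH (p ^ (e + 1)) lam cm_lam)) (p ^ e) :=
          Nat.Coprime.pow_right _ ((Nat.Prime.coprime_iff_not_dvd hp).2 h4).symm
        exact h5.dvd_of_dvd_mul_left h3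
    · intro he
      have hpf : Fact (p ^ (e + 1)).Prime := ⟨by rw [he, zero_add, pow_one]; exact hp⟩
      exact stab_third hodd cm_lam hnot
    · rintro k₁ k₂ ⟨a1, a2, a3, a4⟩ ⟨b1, b2, b3, b4⟩
      have h3 := ratio_fail a1 a2 ((hcop _).1 a3) a4 b1 b2 ((hcop _).1 b3) b4
      have h4 : (U (p ^ (e + 1)) k₂ * (U (p ^ (e + 1)) k₁)⁻¹) ^
          Nat.card (HH (p ^ (e + 1)) lam cm_lam) = 1 := by
        have h5 := pow_card_eq_one' (x := (⟨_, h3⟩ : HH (p ^ (e + 1)) lam cm_lam))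
        have h6 : (((⟨_, h3⟩ : HH (p ^ (e + 1)) lam cm_lam) ^
            Nat.card (HH (p ^ (e + 1)) lam cm_lam) : HH (p ^ (e + 1)) lam cm_lam) :
            (ZMod (p ^ (e + 1)))ˣ) = 1 := by rw [h5]; rfl
        exact h6
      rw [mul_pow, inv_pow, mul_inv_eq_one] at h4
      have h7 := congrArg (Units.val) h4
      rw [Units.val_pow_eq_pow_val, Units.val_pow_eq_pow_val, coe_U ((hcop _).1 a3),
        coe_U ((hcop _).1 b3)] at h7
      rw [← ZMod.natCast_eq_natCast_iff]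
      push_cast
      exact h7.symm
    · refine le_trans (le_of_eq ?_) (fail_le_card (n := p ^ (e + 1)))
      congr 1
      ext k
      simp only [Set.mem_ofPred_eq]
      rw [hcop]
  · push Not at hE
    obtain ⟨he, hp7⟩ := hE
    have hcard : {k : ℕ | 1 ≤ k ∧ k < p ^ (e + 1) ∧ ¬ p ∣ k ∧
        ¬ Mixed (p ^ (e + 1)) k (p ^ (e + 1))}.ncard ≤ 1 := by
      rcases odd_prime_cases hp h2 with rfl | rfl | h7
      · exact card_fail (v := 1) (o := 1) (by norm_num) (by norm_num) (by rw [he]; norm_num)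
      · exact card_fail (v := 2) (o := 1) (by norm_num) (by norm_num) (by rw [he]; norm_num)
      · omega
    refine ⟨1, odd_one, one_dvd _, ?_, ?_, ?_, hcard⟩
    · have h3 : (1 : ℝ) ≤ Real.sqrt ((p ^ (e + 1) : ℕ) : ℝ) := by
        rw [Real.one_le_sqrt]
        exact_mod_cast h1n.le
      push_cast at h3 ⊢
      linarith
    · intro _
      have h3 : 0 < p ^ (e + 1) := by omega
      calc 1 ^ 3 ≤ 10 ^ 13 * 1 := by norm_num
        _ ≤ 10 ^ 13 * p ^ (e + 1) := Nat.mul_le_mul_left _ h3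
    · intro k₁ k₂ a b
      have hf : {k : ℕ | 1 ≤ k ∧ k < p ^ (e + 1) ∧ ¬ p ∣ k ∧
        ¬ Mixed (p ^ (e + 1)) k (p ^ (e + 1))}.Finite :=
        (Set.finite_Iio (p ^ (e + 1))).subset (fun k hk => hk.2.1)
      rw [(Set.ncard_le_one hf).1 hcard k₁ a k₂ b]

/-- all prime powers -/
theorem fail_all_third {p e : ℕ} (hp : p.Prime) :
    ∃ D : ℕ, D ∣ 4 * (p - 1) ∧ (p ≠ 2 → Odd D) ∧
      (D : ℝ) ≤ 3 * Real.sqrt ((p ^ (e + 1) : ℕ) : ℝ) ∧
      (e ≠ 1 → D ^ 3 ≤ 10 ^ 13 * p ^ (e + 1)) ∧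
      (∀ k₁ k₂ : ℕ, (1 ≤ k₁ ∧ k₁ < p ^ (e + 1) ∧ ¬ p ∣ k₁ ∧
          ¬ Mixed (p ^ (e + 1)) k₁ (p ^ (e + 1))) →
        (1 ≤ k₂ ∧ k₂ < p ^ (e + 1) ∧ ¬ p ∣ k₂ ∧ ¬ Mixed (p ^ (e + 1)) k₂ (p ^ (e + 1))) →
        k₁ ^ D ≡ k₂ ^ D [MOD p ^ (e + 1)]) ∧
      {k : ℕ | 1 ≤ k ∧ k < p ^ (e + 1) ∧ ¬ p ∣ k ∧
        ¬ Mixed (p ^ (e + 1)) k (p ^ (e + 1))}.ncard ≤ D := by
  have hpe : 0 < p ^ (e + 1) := Nat.pow_pos hp.pos
  rcases eq_or_ne p 2 with rfl | h2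
  · obtain ⟨D, h1, h2, h3⟩ := fail_two_struct e
    have h4 : D ≤ 4 := Nat.le_of_dvd (by norm_num) h1
    refine ⟨D, by simpa using h1, fun h => absurd rfl h, ?_, ?_, h2, h3⟩
    · have h5 : (D : ℝ) ≤ 4 := by exact_mod_cast h4
      have h6 : (2 : ℝ) ≤ ((2 ^ (e + 1) : ℕ) : ℝ) := by
        have : 2 ^ 1 ≤ 2 ^ (e + 1) := Nat.pow_le_pow_right (by norm_num) (by omega)
        exact_mod_cast this
      have h7 : (4 / 3 : ℝ) ≤ Real.sqrt ((2 ^ (e + 1) : ℕ) : ℝ) := by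
        apply Real.le_sqrt_of_sq_le
        norm_num at h6 ⊢
        linarith
      linarith
    · intro _
      calc D ^ 3 ≤ 4 ^ 3 := Nat.pow_le_pow_left h4 3
        _ ≤ 10 ^ 13 * 1 := by norm_num
        _ ≤ 10 ^ 13 * 2 ^ (e + 1) := Nat.mul_le_mul_left _ hpe
  · obtain ⟨D, h1, h3, h4, h5, h6, h7⟩ := fail_pp_third (e := e) hp h2
    refine ⟨D, h3.mul_left 4, fun _ => h1, h4, ?_, h6, h7⟩
    intro he
    rcases Nat.eq_zero_or_pos e with h0 | h0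
    · exact h5 h0
    · have hDp : D ≤ p := by
        have hp2 := hp.two_le
        have := Nat.le_of_dvd (by omega) h3
        omega
      calc D ^ 3 ≤ p ^ 3 := Nat.pow_le_pow_left hDp 3
        _ ≤ p ^ (e + 1) := Nat.pow_le_pow_right hp.pos (by omega)
        _ ≤ 10 ^ 13 * p ^ (e + 1) := Nat.le_mul_of_pos_left _ (by norm_num)

end Pool.Agent.Helper87.SB
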