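import Mathlib
import Pool.Agent.Helper26.PE.Final
import Pool.Agent.Helper87.SB.Final

/-!
# The stabilizer of the Liouville function has at most `C n ^ ε` elements for every prime `n`
-/

set_option autoImplicit false

open Finset

namespace Pool.Agent.Helper87.SB

open Pool.Agent.Helper68.CO2 Pool.Agent.Helper87.PA2

theorem la_eq_lam (m : ℕ) : Pool.Agent.Helper26.PE.la m = (((lam m : ℤˣ) : ℤ) : ℝ) := by
  unfold Pool.Agent.Helper26.PE.la lam
  push_cast
  rfl

theorem stab_HH {n : ℕ} [hp : Fact n.Prime] [hn : Fact (1 < n)] :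
    Pool.Agent.Helper26.PE.Stab (HH n lam cm_lam) := by
  intro g hg
  refine ⟨Pool.Agent.Helper26.PE.la (g : ZMod n).val, ?_, fun x hx => ?_⟩
  · rcases Pool.Agent.Helper26.PE.la_eq (g : ZMod n).val with h | h <;> rw [h] <;> norm_num
  · have h := mem_HH.1 hg (Units.mk0 x hx)
    unfold FF at h
    rw [Units.val_mul, Units.val_mk0] at h
    unfold Pool.Agent.Helper26.PE.F
    rw [la_eq_lam, la_eq_lam, la_eq_lam, h]
    push_cast
    ring

/-- the stabilizer modulo a prime -/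
theorem stab_eps : ∃ C : ℝ → ℝ, ∀ ε : ℝ, 0 < ε → 4 ≤ C ε ∧ ∀ n : ℕ, n.Prime → ∀ hn : Fact (1 < n),
    (Nat.card (HH n lam cm_lam) : ℝ) ≤ C ε * (n : ℝ) ^ ε := by
  have key : ∀ ε : ℝ, ∃ C : ℝ, 0 < ε → 4 ≤ C ∧ ∀ n : ℕ, n.Prime → ∀ hn : Fact (1 < n),
      (Nat.card (HH n lam cm_lam) : ℝ) ≤ C * (n : ℝ) ^ ε := by
    intro ε
    by_cases hε : 0 < ε
    · obtain ⟨p0, h0⟩ := Pool.Agent.Helper26.PE.stab_small ε hε
      refine ⟨max 4 p0, fun _ => ⟨le_max_left _ _, fun n hp hn => ?_⟩⟩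
      have hpf : Fact n.Prime := ⟨hp⟩
      have hn1 : (1 : ℝ) ≤ (n : ℝ) ^ ε := by
        apply Real.one_le_rpow _ hε.le
        exact_mod_cast hp.one_lt.le
      rcases Nat.lt_or_ge n p0 with h | h
      · have hNZ : NeZero n := ⟨hp.ne_zero⟩
        have h1 : Nat.card (HH n lam cm_lam) ≤ n := by
          refine (Nat.card_le_card_of_injective (fun h : HH n lam cm_lam =>
            ((h : (ZMod n)ˣ) : ZMod n)) ?_).trans ?_
          · intro a b hab
            exact Subtype.ext (Units.ext hab)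
          · rw [Nat.card_eq_fintype_card, ZMod.card]
        have h2 : (Nat.card (HH n lam cm_lam) : ℝ) ≤ max 4 (p0 : ℝ) := by
          refine le_trans ?_ (le_max_right _ _)
          exact_mod_cast h1.trans h.le
        calc (Nat.card (HH n lam cm_lam) : ℝ) ≤ max 4 (p0 : ℝ) * 1 := by rw [mul_one]; exact h2
          _ ≤ max 4 (p0 : ℝ) * (n : ℝ) ^ ε :=
            mul_le_mul_of_nonneg_left hn1 (le_trans (by norm_num) (le_max_left _ _))
      · have h1 := h0 n h (HH n lam cm_lam) stab_HH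
        refine h1.trans ?_
        have h4 : (1 : ℝ) ≤ max 4 (p0 : ℝ) := le_trans (by norm_num) (le_max_left _ _)
        calc (n : ℝ) ^ ε = 1 * (n : ℝ) ^ ε := (one_mul _).symm
          _ ≤ _ := mul_le_mul_of_nonneg_right h4 (by positivity)
    · exact ⟨0, fun h => absurd h hε⟩
  choose C hC using key
  exact ⟨C, fun ε hε => hC ε hε⟩

end Pool.Agent.Helper87.SB
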