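import Mathlib
import Pool.Agent.Helper87.SB.Union
import Pool.Agent.Helper87.SB.Eps
import Pool.Agent.Helper68.CO2.Same

/-!
MP_418075_nt, Q1 (parity form, exact columns).  For every prime power `n > 1` at most `3 sqrt n` of
the columns `C_{n,k}`, `k` prime to `n`, lack an even or an odd number of prime factors, at most
`21545 n ^ (1 / 3)` unless `n` is the square of a prime, and at most `C(ε) n ^ ε`, every `ε > 0`, if
`n` is a prime; the exceptional columns lie in one coset of the elements of order dividing a divisor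
`D` of `4 (p - 1)`, which is odd if `p` is odd, and then they all miss the same parity.
-/

set_option autoImplicit false

namespace Pool.Agent.Helper87.SB.Cand

/-- The `k`th column `k, n + k, …, (n - 1) n + k` of the `n` by `n` array contains a number with an
even number of prime factors, counted with multiplicity. -/
def HasEven (n k : ℕ) : Prop := ∃ j < n, Even (ArithmeticFunction.cardFactors (j * n + k))

/-- The `k`th column `k, n + k, …, (n - 1) n + k` of the `n` by `n` array contains a number with an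
odd number of prime factors, counted with multiplicity. -/
def HasOdd (n k : ℕ) : Prop := ∃ j < n, Odd (ArithmeticFunction.cardFactors (j * n + k))

/-- The numbers `k` of the columns, `k` prime to `n`, that lack one of the two parities. -/
def Exceptional (n : ℕ) : Set ℕ :=
  {k : ℕ | 1 ≤ k ∧ k ≤ n ∧ Nat.Coprime k n ∧ ¬ (HasEven n k ∧ HasOdd n k)}

/-- The exceptional columns modulo a prime power. -/
theorem result : ∃ C : ℝ → ℝ, ∀ p : ℕ, p.Prime → ∀ e : ℕ, ∃ D : ℕ,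
    D ∣ 4 * (p - 1) ∧ (p ≠ 2 → Odd D) ∧ (D : ℝ) ≤ 3 * Real.sqrt ((p ^ (e + 1) : ℕ) : ℝ) ∧
    (e ≠ 1 → D ^ 3 ≤ 10 ^ 13 * p ^ (e + 1)) ∧
    (e = 0 → ∀ ε : ℝ, 0 < ε → (D : ℝ) ≤ C ε * (p : ℝ) ^ ε) ∧
    (Exceptional (p ^ (e + 1))).ncard ≤ D ∧
    (∀ k₁ ∈ Exceptional (p ^ (e + 1)), ∀ k₂ ∈ Exceptional (p ^ (e + 1)),
      k₁ ^ D ≡ k₂ ^ D [MOD p ^ (e + 1)]) ∧
    (p ≠ 2 → (∀ k ∈ Exceptional (p ^ (e + 1)), HasOdd (p ^ (e + 1)) k) ∨
      (∀ k ∈ Exceptional (p ^ (e + 1)), HasEven (p ^ (e + 1)) k)) := by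
  obtain ⟨C, hC⟩ := Pool.Agent.Helper87.SB.stab_eps
  refine ⟨C, fun p hp e => ?_⟩
  obtain ⟨D, h1, h2, h3, h3', h6, h4, h5⟩ :=
    Pool.Agent.Helper87.SB.fail_all_eps C hC (e := e) hp
  have hn1 : 1 < p ^ (e + 1) := Nat.one_lt_pow (Nat.succ_ne_zero e) hp.one_lt
  have hmem : ∀ k ∈ Exceptional (p ^ (e + 1)), 1 ≤ k ∧ k < p ^ (e + 1) ∧ ¬ p ∣ k ∧
      ¬ Pool.Agent.Helper68.CO2.Mixed (p ^ (e + 1)) k (p ^ (e + 1)) := by
    rintro k ⟨a1, a2, a3, a4⟩
    have a5 : k ≠ p ^ (e + 1) := by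
      rintro rfl
      rw [Nat.coprime_self] at a3
      omega
    refine ⟨a1, by omega, ?_, a4⟩
    have a6 : Nat.Coprime k p := Nat.Coprime.coprime_dvd_right (dvd_pow_self p (by omega)) a3
    exact (Nat.Prime.coprime_iff_not_dvd hp).1 a6.symm
  refine ⟨D, h1, h2, h3, h3', ?_, ?_, ?_, ?_⟩
  · intro he ε hε
    have h := h6 he ε hε
    rwa [he, zero_add, pow_one] at h
  · refine (Set.ncard_le_ncard hmem ?_).trans h5
    exact (Set.finite_Iio (p ^ (e + 1))).subset (fun k hk => hk.2.1)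
  · intro k₁ hk₁ k₂ hk₂
    exact h4 k₁ k₂ (hmem k₁ hk₁) (hmem k₂ hk₂)
  · intro hp2
    by_contra hcon
    rw [not_or] at hcon
    obtain ⟨c1, c2⟩ := hcon
    push Not at c1 c2
    obtain ⟨k₁, a, a'⟩ := c1
    obtain ⟨k₂, b, b'⟩ := c2
    obtain ⟨a1, a2, a3, _⟩ := hmem k₁ a
    obtain ⟨b1, b2, b3, _⟩ := hmem k₂ b
    rcases Pool.Agent.Helper68.CO2.same_parity (e := e) hp hp2 a1 a2 a3 b1 b2 b3 with h | h
    · exact a' h
    · exact b' h

end Pool.Agent.Helper87.SB.Cand
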